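import Pool.Agent.helper25.CX.Spec

set_option autoImplicit false

open MeasureTheory Set Filter Topology
open scoped ENNReal
open Pool.Agent.helper81.CW

namespace Pool.Agent.CX

theorem CHV_un {n : ℕ} (x : E n) (hx : x ≠ 0) : ‖un x‖ = 1 := by
  unfold un
  rw [norm_smul, norm_inv, norm_norm, inv_mul_cancel₀ (norm_ne_zero_iff.mpr hx)]

theorem CHV_neg {n : ℕ} {M : E n → E n} (hM : EvenMap M) (x : E n) (L : E n →L[ℝ] E n)
    (h : HasFDerivAt (fun z : E n => ‖z‖ • M z) L x) :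
    HasFDerivAt (fun z : E n => ‖z‖ • M z) (-L) (-x) := by
  have h1 : HasFDerivAt (fun z : E n => -z) (-ContinuousLinearMap.id ℝ (E n)) (-x) :=
    (hasFDerivAt_id (-x)).neg
  have h2 : HasFDerivAt (fun z : E n => ‖z‖ • M z) L (-(-x)) := by
    rw [neg_neg]
    exact h
  have h3 := h2.comp (-x) h1
  have e1 : (fun z : E n => ‖z‖ • M z) ∘ (fun z : E n => -z) = (fun z : E n => ‖z‖ • M z) := by
    funext z
    show ‖-z‖ • M (-z) = ‖z‖ • M z
    rw [norm_neg, hM.even z]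
  have e2 : L.comp (-ContinuousLinearMap.id ℝ (E n)) = -L := by
    ext1 v
    show L (-v) = -L v
    rw [map_neg]
  rw [e1, e2] at h3
  exact h3

theorem CHV (hGLP : GLP_stmt) (hDER : DER_stmt) (hDET : DET_stmt) (hINJ : INJ_stmt) : CHV_stmt := by
  intro n M hM A hA hsym h0
  set G : E n → E n := fun z => ‖z‖ • M z with hG
  have hLip : LipschitzWith (3 / 2 : NNReal) G := by
    refine LipschitzWith.of_dist_le_mul ?_
    intro x y
    rw [dist_eq_norm, dist_eq_norm]
    have := hGLP n M hM x y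
    have e : ((3 / 2 : NNReal) : ℝ) = 3 / 2 := by norm_num
    rw [e]
    exact this
  have hae : ∀ᵐ x ∂(volume : Measure (E n)), DifferentiableAt ℝ G x := hLip.ae_differentiableAt
  set D : Set (E n) := {x | DifferentiableAt ℝ G x} with hD
  have hDm : MeasurableSet D := measurableSet_of_differentiableAt ℝ G
  have hDae : volume Dᶜ = 0 := hae
  set A₀ : Set (E n) := A ∩ D with hA₀
  have hA₀m : MeasurableSet A₀ := hA.inter hDm
  have hvA : volume A ≤ volume A₀ := by
    have h1 : A ⊆ A₀ ∪ Dᶜ := by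
      intro x hx
      by_cases h : x ∈ D
      · exact Or.inl ⟨hx, h⟩
      · exact Or.inr h
    refine (measure_mono h1).trans ((measure_union_le _ _).trans ?_)
    rw [hDae, add_zero]
  have hsub : A₀ ⊆ A := inter_subset_left
  have hne : ∀ x ∈ A₀, x ≠ 0 := by
    intro x hx h
    rw [h] at hx
    exact h0 (hsub hx)
  have hder : ∀ x ∈ A₀, HasFDerivAt G (fderiv ℝ G x) x := by
    intro x hx
    have h1 : DifferentiableAt ℝ G x := hx.2
    exact h1.hasFDerivAt
  have hder' : ∀ x ∈ A₀, HasFDerivAt G (-fderiv ℝ G x) (-x) := fun x hx => CHV_neg hM x _ (hder x hx)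
  have hsym₀ : ∀ x, x ∈ A₀ → -x ∈ A₀ := by
    intro x hx
    exact ⟨hsym x hx.1, (hder' x hx).differentiableAt⟩
  set f' : E n → E n →L[ℝ] E n := fun x => (3 / 8 : ℝ) • ContinuousLinearMap.id ℝ (E n) + (1 / 4 : ℝ) • fderiv ℝ G x
    with hf'
  have hPh : ∀ x ∈ A₀, HasFDerivWithinAt (Ph M) (f' x) A₀ x := by
    intro x hx
    have h1 : HasFDerivAt (fun z : E n => (3 / 8 : ℝ) • z + (1 / 4 : ℝ) • G z) (f' x) x :=
      ((hasFDerivAt_id x).const_smul (3 / 8 : ℝ)).add ((hder x hx).const_smul (1 / 4 : ℝ))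
    have e1 : Ph M = fun z : E n => (3 / 8 : ℝ) • z + (1 / 4 : ℝ) • G z := by
      funext z
      show (3 / 8 : ℝ) • z + ((1 / 4 : ℝ) * ‖z‖) • M z = (3 / 8 : ℝ) • z + (1 / 4 : ℝ) • (‖z‖ • M z)
      rw [smul_smul]
    rw [e1]
    exact h1.hasFDerivWithinAt
  have hinj : InjOn (Ph M) A₀ := by
    intro x hx y hy hxy
    exact hINJ n M hM (hne x hx) (hne y hy) hxy
  have hcv := lintegral_abs_det_fderiv_eq_addHaar_image volume hA₀m hPh hinj
  set g : E n → ℝ≥0∞ := fun x => ENNReal.ofReal |(f' x).det| with hg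
  have hgm : Measurable g := by
    have h1 : Measurable f' := by
      have h2 : Measurable (fderiv ℝ G) := measurable_fderiv ℝ G
      exact (measurable_const.add (h2.const_smul (1 / 4 : ℝ)))
    have h3 : Continuous (fun L : E n →L[ℝ] E n => ENNReal.ofReal |L.det|) :=
      ENNReal.continuous_ofReal.comp (continuous_abs.comp ContinuousLinearMap.continuous_det)
    exact h3.measurable.comp h1
  have hneg : ∫⁻ x in A₀, g (-x) = ∫⁻ x in A₀, g x := by
    rw [← lintegral_indicator hA₀m, ← lintegral_indicator hA₀m]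
    rw [← lintegral_neg_eq_self (fun x => A₀.indicator g x)]
    refine lintegral_congr ?_
    intro x
    by_cases h : x ∈ A₀
    · rw [indicator_of_mem h, indicator_of_mem (hsym₀ x h)]
    · have h' : -x ∉ A₀ := by
        intro h2
        have := hsym₀ (-x) h2
        rw [neg_neg] at this
        exact h this
      rw [indicator_of_notMem h, indicator_of_notMem h']
  have hsum : ∫⁻ x in A₀, (g x + g (-x)) = 2 * volume (Ph M '' A₀) := by
    rw [lintegral_add_left hgm, hneg, hcv, two_mul]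
  have hpt : ∀ x ∈ A₀, ENNReal.ofReal (2 * Real.sqrt (1 / 8) ^ n) ≤ g x + g (-x) := by
    intro x hx
    have hx0 := hne x hx
    have hL := hDER n M hM x hx0 (fderiv ℝ G x) (hder x hx)
    have h1 : ‖(fderiv ℝ G x) (un x)‖ ≤ 1 / 2 := by
      rw [hL.1]
      exact hM.bdd x
    have h2 := hDET n (fderiv ℝ G x) (un x) (CHV_un x hx0) h1 hL.2
    have h3 : fderiv ℝ G (-x) = -fderiv ℝ G x := (hder' x hx).fderiv
    have h4 : f' (-x) = (3 / 8 : ℝ) • ContinuousLinearMap.id ℝ (E n) - (1 / 4 : ℝ) • fderiv ℝ G x := by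
      show (3 / 8 : ℝ) • ContinuousLinearMap.id ℝ (E n) + (1 / 4 : ℝ) • fderiv ℝ G (-x) = _
      rw [h3, smul_neg, sub_eq_add_neg]
    have h5 : g (-x) = ENNReal.ofReal |((3 / 8 : ℝ) • ContinuousLinearMap.id ℝ (E n) -
        (1 / 4 : ℝ) • fderiv ℝ G x).det| := by
      show ENNReal.ofReal |(f' (-x)).det| = _
      rw [h4]
    rw [h5]
    show _ ≤ ENNReal.ofReal |((3 / 8 : ℝ) • ContinuousLinearMap.id ℝ (E n) + (1 / 4 : ℝ) • fderiv ℝ G x).det| + _
    set a : ℝ := |((3 / 8 : ℝ) • ContinuousLinearMap.id ℝ (E n) + (1 / 4 : ℝ) • fderiv ℝ G x).det| with ha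
    set b : ℝ := |((3 / 8 : ℝ) • ContinuousLinearMap.id ℝ (E n) - (1 / 4 : ℝ) • fderiv ℝ G x).det| with hb
    have ha0 : 0 ≤ a := abs_nonneg _
    have hb0 : 0 ≤ b := abs_nonneg _
    rw [← ENNReal.ofReal_add ha0 hb0]
    refine ENNReal.ofReal_le_ofReal ?_
    have h6 : (2 * Real.sqrt (1 / 8) ^ n) ^ 2 ≤ (a + b) ^ 2 := by
      have e1 : (2 * Real.sqrt (1 / 8) ^ n) ^ 2 = 4 * (1 / 8 : ℝ) ^ n := by
        rw [mul_pow, ← pow_mul, mul_comm n 2, pow_mul, Real.sq_sqrt (by norm_num)]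
        norm_num
      rw [e1]
      nlinarith [sq_nonneg (a - b)]
    have h7 : 0 ≤ 2 * Real.sqrt (1 / 8) ^ n := by positivity
    exact (sq_le_sq₀ h7 (by linarith)).mp h6
  have h1 : ENNReal.ofReal (2 * Real.sqrt (1 / 8) ^ n) * volume A₀ ≤ 2 * volume (Ph M '' A₀) := by
    rw [← hsum, ← setLIntegral_const]
    exact setLIntegral_mono' hA₀m hpt
  have h2 : ENNReal.ofReal (2 * Real.sqrt (1 / 8) ^ n) = 2 * ENNReal.ofReal (Real.sqrt (1 / 8) ^ n) := by
    rw [ENNReal.ofReal_mul (by norm_num)]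
    norm_num
  rw [h2, mul_assoc] at h1
  have h3 : ENNReal.ofReal (Real.sqrt (1 / 8) ^ n) * volume A₀ ≤ volume (Ph M '' A₀) :=
    (ENNReal.mul_le_mul_iff_right two_ne_zero ENNReal.ofNat_ne_top).mp h1
  calc ENNReal.ofReal (Real.sqrt (1 / 8) ^ n) * volume A ≤ ENNReal.ofReal (Real.sqrt (1 / 8) ^ n) * volume A₀ := by
        gcongr
    _ ≤ volume (Ph M '' A₀) := h3
    _ ≤ volume (Ph M '' A) := measure_mono (image_mono hsub)

end Pool.Agent.CX
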