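import Pool.Agent.helper25.CX.SpecB
import Pool.Agent.helper25.CX.CHV

set_option autoImplicit false

open MeasureTheory Set Filter Topology
open scoped ENNReal
open Pool.Agent.helper81.CW

namespace Pool.Agent.CX

theorem CVG (hGLP : GLP_stmt) (hDER : DER_stmt) (hDET : DTG_stmt) (hINJ : IJG_stmt) : CVG_stmt := by
  intro n a₀ b₀ ha₀ hb₀ hab₀ M hM A hA hsym h0
  set G : E n → E n := fun z => ‖z‖ • M z with hG
  have hLip : LipschitzWith (3 / 2 : NNReal) G := by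
    refine LipschitzWith.of_dist_le_mul ?_
    intro x y
    rw [dist_eq_norm, dist_eq_norm]
    have := hGLP n M hM x y
    have e : ((3 / 2 : NNReal) : ℝ) = 3 / 2 := by norm_num
    rw [e]
    exact this
  have hae : ∀ᵐ x ∂(volume : Measure (E n)), DifferentiableAt ℝ G x := hLip.ae_differentiableAt
  set D : Set (E n) := {x | DifferentiableAt ℝ G x} with hD
  have hDm : MeasurableSet D := measurableSet_of_differentiableAt ℝ G
  have hDae : volume Dᶜ = 0 := hae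
  set A₀ : Set (E n) := A ∩ D with hA₀
  have hA₀m : MeasurableSet A₀ := hA.inter hDm
  have hvA : volume A ≤ volume A₀ := by
    have h1 : A ⊆ A₀ ∪ Dᶜ := by
      intro x hx
      by_cases h : x ∈ D
      · exact Or.inl ⟨hx, h⟩
      · exact Or.inr h
    refine (measure_mono h1).trans ((measure_union_le _ _).trans ?_)
    rw [hDae, add_zero]
  have hsub : A₀ ⊆ A := inter_subset_left
  have hne : ∀ x ∈ A₀, x ≠ 0 := by
    intro x hx h
    rw [h] at hx
    exact h0 (hsub hx)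
  have hder : ∀ x ∈ A₀, HasFDerivAt G (fderiv ℝ G x) x := by
    intro x hx
    have h1 : DifferentiableAt ℝ G x := hx.2
    exact h1.hasFDerivAt
  have hder' : ∀ x ∈ A₀, HasFDerivAt G (-fderiv ℝ G x) (-x) := fun x hx => CHV_neg hM x _ (hder x hx)
  have hsym₀ : ∀ x, x ∈ A₀ → -x ∈ A₀ := by
    intro x hx
    exact ⟨hsym x hx.1, (hder' x hx).differentiableAt⟩
  set f' : E n → E n →L[ℝ] E n := fun x => a₀ • ContinuousLinearMap.id ℝ (E n) + b₀ • fderiv ℝ G x
    with hf'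
  have hPh : ∀ x ∈ A₀, HasFDerivWithinAt (Pg a₀ b₀ M) (f' x) A₀ x := by
    intro x hx
    have h1 : HasFDerivAt (fun z : E n => a₀ • z + b₀ • G z) (f' x) x :=
      ((hasFDerivAt_id x).const_smul a₀).add ((hder x hx).const_smul b₀)
    have e1 : Pg a₀ b₀ M = fun z : E n => a₀ • z + b₀ • G z := by
      funext z
      show a₀ • z + (b₀ * ‖z‖) • M z = a₀ • z + b₀ • (‖z‖ • M z)
      rw [smul_smul]
    rw [e1]
    exact h1.hasFDerivWithinAt
  have hinj : InjOn (Pg a₀ b₀ M) A₀ := by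
    intro x hx y hy hxy
    exact hINJ n a₀ b₀ ha₀ hb₀ hab₀ M hM (hne x hx) (hne y hy) hxy
  have hcv := lintegral_abs_det_fderiv_eq_addHaar_image volume hA₀m hPh hinj
  set g : E n → ℝ≥0∞ := fun x => ENNReal.ofReal |(f' x).det| with hg
  have hgm : Measurable g := by
    have h1 : Measurable f' := by
      have h2 : Measurable (fderiv ℝ G) := measurable_fderiv ℝ G
      exact (measurable_const.add (h2.const_smul b₀))
    have h3 : Continuous (fun L : E n →L[ℝ] E n => ENNReal.ofReal |L.det|) :=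
      ENNReal.continuous_ofReal.comp (continuous_abs.comp ContinuousLinearMap.continuous_det)
    exact h3.measurable.comp h1
  have hneg : ∫⁻ x in A₀, g (-x) = ∫⁻ x in A₀, g x := by
    rw [← lintegral_indicator hA₀m, ← lintegral_indicator hA₀m]
    rw [← lintegral_neg_eq_self (fun x => A₀.indicator g x)]
    refine lintegral_congr ?_
    intro x
    by_cases h : x ∈ A₀
    · rw [indicator_of_mem h, indicator_of_mem (hsym₀ x h)]
    · have h' : -x ∉ A₀ := by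
        intro h2
        have := hsym₀ (-x) h2
        rw [neg_neg] at this
        exact h this
      rw [indicator_of_notMem h, indicator_of_notMem h']
  have hsum : ∫⁻ x in A₀, (g x + g (-x)) = 2 * volume (Pg a₀ b₀ M '' A₀) := by
    rw [lintegral_add_left hgm, hneg, hcv, two_mul]
  have hpt : ∀ x ∈ A₀, ENNReal.ofReal (2 * Real.sqrt (a₀ ^ 2 - b₀ ^ 2 / 4) ^ n) ≤ g x + g (-x) := by
    intro x hx
    have hx0 := hne x hx
    have hL := hDER n M hM x hx0 (fderiv ℝ G x) (hder x hx)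
    have h1 : ‖(fderiv ℝ G x) (un x)‖ ≤ 1 / 2 := by
      rw [hL.1]
      exact hM.bdd x
    have h2 := hDET n a₀ b₀ ha₀ hb₀ hab₀ (fderiv ℝ G x) (un x) (CHV_un x hx0) h1 hL.2
    have h3 : fderiv ℝ G (-x) = -fderiv ℝ G x := (hder' x hx).fderiv
    have h4 : f' (-x) = a₀ • ContinuousLinearMap.id ℝ (E n) - b₀ • fderiv ℝ G x := by
      show a₀ • ContinuousLinearMap.id ℝ (E n) + b₀ • fderiv ℝ G (-x) = _
      rw [h3, smul_neg, sub_eq_add_neg]
    have h5 : g (-x) = ENNReal.ofReal |(a₀ • ContinuousLinearMap.id ℝ (E n) -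
        b₀ • fderiv ℝ G x).det| := by
      show ENNReal.ofReal |(f' (-x)).det| = _
      rw [h4]
    rw [h5]
    show _ ≤ ENNReal.ofReal |(a₀ • ContinuousLinearMap.id ℝ (E n) + b₀ • fderiv ℝ G x).det| + _
    set a : ℝ := |(a₀ • ContinuousLinearMap.id ℝ (E n) + b₀ • fderiv ℝ G x).det| with ha
    set b : ℝ := |(a₀ • ContinuousLinearMap.id ℝ (E n) - b₀ • fderiv ℝ G x).det| with hb
    have ha0 : 0 ≤ a := abs_nonneg _
    have hb0 : 0 ≤ b := abs_nonneg _
    rw [← ENNReal.ofReal_add ha0 hb0]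
    refine ENNReal.ofReal_le_ofReal ?_
    have h6 : (2 * Real.sqrt (a₀ ^ 2 - b₀ ^ 2 / 4) ^ n) ^ 2 ≤ (a + b) ^ 2 := by
      have e1 : (2 * Real.sqrt (a₀ ^ 2 - b₀ ^ 2 / 4) ^ n) ^ 2 = 4 * (a₀ ^ 2 - b₀ ^ 2 / 4) ^ n := by
        rw [mul_pow, ← pow_mul, mul_comm n 2, pow_mul, Real.sq_sqrt (by nlinarith)]
        norm_num
      rw [e1]
      nlinarith [sq_nonneg (a - b)]
    have h7 : 0 ≤ 2 * Real.sqrt (a₀ ^ 2 - b₀ ^ 2 / 4) ^ n := by positivity
    exact (sq_le_sq₀ h7 (by linarith)).mp h6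
  have h1 : ENNReal.ofReal (2 * Real.sqrt (a₀ ^ 2 - b₀ ^ 2 / 4) ^ n) * volume A₀ ≤ 2 * volume (Pg a₀ b₀ M '' A₀) := by
    rw [← hsum, ← setLIntegral_const]
    exact setLIntegral_mono' hA₀m hpt
  have h2 : ENNReal.ofReal (2 * Real.sqrt (a₀ ^ 2 - b₀ ^ 2 / 4) ^ n) = 2 * ENNReal.ofReal (Real.sqrt (a₀ ^ 2 - b₀ ^ 2 / 4) ^ n) := by
    rw [ENNReal.ofReal_mul (by norm_num)]
    norm_num
  rw [h2, mul_assoc] at h1
  have h3 : ENNReal.ofReal (Real.sqrt (a₀ ^ 2 - b₀ ^ 2 / 4) ^ n) * volume A₀ ≤ volume (Pg a₀ b₀ M '' A₀) :=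
    (ENNReal.mul_le_mul_iff_right two_ne_zero ENNReal.ofNat_ne_top).mp h1
  calc ENNReal.ofReal (Real.sqrt (a₀ ^ 2 - b₀ ^ 2 / 4) ^ n) * volume A ≤ ENNReal.ofReal (Real.sqrt (a₀ ^ 2 - b₀ ^ 2 / 4) ^ n) * volume A₀ := by
        gcongr
    _ ≤ volume (Pg a₀ b₀ M '' A₀) := h3
    _ ≤ volume (Pg a₀ b₀ M '' A) := measure_mono (image_mono hsub)

end Pool.Agent.CX
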