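import Pool.Agent.helper25.CX.Spec

set_option autoImplicit false

open MeasureTheory Set Filter Topology
open scoped ENNReal
open Pool.Agent.helper81.CW

namespace Pool.Agent.CX

theorem DER_un {n : ℕ} (x : E n) (hx : x ≠ 0) : ‖un x‖ = 1 := by
  unfold un
  rw [norm_smul, norm_inv, norm_norm, inv_mul_cancel₀ (norm_ne_zero_iff.mpr hx)]

theorem DER_smul {n : ℕ} (x : E n) (hx : x ≠ 0) : ‖x‖ • un x = x := by
  unfold un
  rw [smul_smul, mul_inv_cancel₀ (norm_ne_zero_iff.mpr hx), one_smul]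

theorem DER_norm {n : ℕ} (x v : E n) (hx : x ≠ 0) (hv : inner ℝ (un x) v = (0 : ℝ)) (t : ℝ) :
    ‖x + t • v‖ ^ 2 = ‖x‖ ^ 2 + t ^ 2 * ‖v‖ ^ 2 := by
  have h1 : inner ℝ x v = (0 : ℝ) := by
    rw [← DER_smul x hx, real_inner_smul_left, hv, mul_zero]
  rw [norm_add_sq_real, real_inner_smul_right, h1, norm_smul, Real.norm_eq_abs, mul_pow, sq_abs]
  ring

theorem DER_norm' {n : ℕ} (x v : E n) (hx : x ≠ 0) (hv : inner ℝ (un x) v = (0 : ℝ)) (t : ℝ) :
    ‖x‖ ≤ ‖x + t • v‖ ∧ ‖x + t • v‖ - ‖x‖ ≤ t ^ 2 * ‖v‖ ^ 2 / ‖x‖ := by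
  have hx0 : 0 < ‖x‖ := norm_pos_iff.mpr hx
  have h1 := DER_norm x v hx hv t
  have h2 : ‖x‖ ≤ ‖x + t • v‖ := by
    refine (sq_le_sq₀ hx0.le (norm_nonneg _)).mp ?_
    rw [h1]
    have : 0 ≤ t ^ 2 * ‖v‖ ^ 2 := by positivity
    linarith
  refine ⟨h2, ?_⟩
  rw [le_div_iff₀ hx0]
  have h3 : (‖x + t • v‖ - ‖x‖) * (‖x + t • v‖ + ‖x‖) = t ^ 2 * ‖v‖ ^ 2 := by
    have : (‖x + t • v‖ - ‖x‖) * (‖x + t • v‖ + ‖x‖) = ‖x + t • v‖ ^ 2 - ‖x‖ ^ 2 := by ring
    rw [this, h1]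
    ring
  have h4 : (‖x + t • v‖ - ‖x‖) * ‖x‖ ≤ (‖x + t • v‖ - ‖x‖) * (‖x + t • v‖ + ‖x‖) := by
    refine mul_le_mul_of_nonneg_left ?_ (by linarith)
    have := norm_nonneg (x + t • v)
    linarith
  linarith

theorem DER_ne {n : ℕ} (x v : E n) (hx : x ≠ 0) (hv : inner ℝ (un x) v = (0 : ℝ)) (t : ℝ) :
    x + t • v ≠ 0 := by
  intro h
  have h1 := (DER_norm' x v hx hv t).1
  rw [h, norm_zero] at h1
  exact hx (norm_le_zero_iff.mp h1)

theorem DER_est {n : ℕ} {M : E n → E n} (hM : EvenMap M) (x v : E n) (hx : x ≠ 0)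
    (hv : inner ℝ (un x) v = (0 : ℝ)) (t : ℝ) :
    ‖‖x + t • v‖ • M (x + t • v) - ‖x‖ • M x‖ ≤ (1 / 2) * (|t| * ‖v‖) + t ^ 2 * ‖v‖ ^ 2 / ‖x‖ := by
  have hx0 : 0 < ‖x‖ := norm_pos_iff.mpr hx
  obtain ⟨h1, h2⟩ := DER_norm' x v hx hv t
  have hne := DER_ne x v hx hv t
  set z := x + t • v with hz
  have e1 : ‖z‖ • M z - ‖x‖ • M x = (‖z‖ - ‖x‖) • M x + ‖z‖ • (M z - M x) := by
    rw [sub_smul, smul_sub]
    abel
  have e2 : ‖z‖ • (un z - un x) = t • v - (‖z‖ - ‖x‖) • un x := by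
    rw [smul_sub, DER_smul z hne, sub_smul, DER_smul x hx, hz]
    abel
  have h3 : ‖z‖ * ‖un z - un x‖ ≤ |t| * ‖v‖ + (‖z‖ - ‖x‖) := by
    calc ‖z‖ * ‖un z - un x‖ = ‖‖z‖ • (un z - un x)‖ := by rw [norm_smul, norm_norm]
      _ = ‖t • v - (‖z‖ - ‖x‖) • un x‖ := by rw [e2]
      _ ≤ ‖t • v‖ + ‖(‖z‖ - ‖x‖) • un x‖ := norm_sub_le _ _
      _ = |t| * ‖v‖ + (‖z‖ - ‖x‖) := by
          rw [norm_smul, norm_smul, DER_un x hx, Real.norm_eq_abs, Real.norm_eq_abs, mul_one,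
            abs_of_nonneg (by linarith : (0 : ℝ) ≤ ‖z‖ - ‖x‖)]
  rw [e1]
  refine (norm_add_le _ _).trans ?_
  rw [norm_smul, norm_smul, norm_norm, Real.norm_eq_abs, abs_of_nonneg (by linarith : (0 : ℝ) ≤ ‖z‖ - ‖x‖)]
  have h4 : (‖z‖ - ‖x‖) * ‖M x‖ ≤ (‖z‖ - ‖x‖) * (1 / 2) :=
    mul_le_mul_of_nonneg_left (hM.bdd x) (by linarith)
  have h5 : ‖z‖ * ‖M z - M x‖ ≤ ‖z‖ * ((1 / 2) * ‖un z - un x‖) :=
    mul_le_mul_of_nonneg_left (hM.lip z x hne hx) (norm_nonneg _)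
  linarith

theorem DER : DER_stmt := by
  intro n M hM x hx L hL
  have hx0 : 0 < ‖x‖ := norm_pos_iff.mpr hx
  have hline : ∀ v : E n, HasDerivAt (fun t : ℝ => ‖x + t • v‖ • M (x + t • v)) (L v) 0 := by
    intro v
    have h1 : HasDerivAt (fun t : ℝ => x + t • v) v 0 := by
      have := ((hasDerivAt_id (0 : ℝ)).smul_const v).const_add x
      simpa using this
    have h2 : HasFDerivAt (fun z : E n => ‖z‖ • M z) L (x + (0 : ℝ) • v) := by
      rw [zero_smul, add_zero]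
      exact hL
    exact h2.comp_hasDerivAt (0 : ℝ) h1
  refine ⟨?_, ?_⟩
  · have h1 := hline x
    have h2 : HasDerivAt (fun t : ℝ => (1 + t) • (‖x‖ • M x)) (‖x‖ • M x) 0 := by
      have := ((hasDerivAt_id (0 : ℝ)).const_add 1).smul_const (‖x‖ • M x)
      simpa using this
    have h3 : (fun t : ℝ => ‖x + t • x‖ • M (x + t • x)) =ᶠ[𝓝 0] (fun t : ℝ => (1 + t) • (‖x‖ • M x)) := by
      have : ∀ᶠ t : ℝ in 𝓝 0, -1 < t := lt_mem_nhds (by norm_num)
      filter_upwards [this] with t ht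
      have e1 : x + t • x = (1 + t) • x := by rw [add_smul, one_smul]
      have h0 : 0 < 1 + t := by linarith
      rw [e1, hM.hom x (1 + t) h0, norm_smul, Real.norm_eq_abs, abs_of_pos h0, smul_smul]
    have h4 := (h2.congr_of_eventuallyEq h3).unique h1
    unfold un
    rw [map_smul, ← h4, smul_smul, inv_mul_cancel₀ hx0.ne', one_smul]
  · intro v hv
    have hd := hline v
    refine ⟨?_, ?_⟩
    · have hs := hd.tendsto_slope_zero
      simp only [zero_add, zero_smul, add_zero] at hs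
      have hs2 := hs.norm
      have hr : Tendsto (fun t : ℝ => (1 / 2) * ‖v‖ + |t| * (‖v‖ ^ 2 / ‖x‖)) (𝓝[≠] 0) (𝓝 ((1 / 2) * ‖v‖)) := by
        have h1 : Tendsto (fun t : ℝ => (1 / 2) * ‖v‖ + |t| * (‖v‖ ^ 2 / ‖x‖)) (𝓝 0)
            (𝓝 ((1 / 2) * ‖v‖ + |(0 : ℝ)| * (‖v‖ ^ 2 / ‖x‖))) := by
          apply Continuous.tendsto
          fun_prop
        rw [abs_zero, zero_mul, add_zero] at h1
        exact h1.mono_left nhdsWithin_le_nhds
      refine le_of_tendsto_of_tendsto hs2 hr ?_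
      filter_upwards [self_mem_nhdsWithin] with t ht
      have ht0 : t ≠ 0 := ht
      have habs : 0 < |t| := abs_pos.mpr ht0
      rw [norm_smul, norm_inv, Real.norm_eq_abs]
      have h1 := DER_est hM x v hx hv t
      have h2 : |t|⁻¹ * ‖‖x + t • v‖ • M (x + t • v) - ‖x‖ • M x‖ ≤
          |t|⁻¹ * ((1 / 2) * (|t| * ‖v‖) + t ^ 2 * ‖v‖ ^ 2 / ‖x‖) :=
        mul_le_mul_of_nonneg_left h1 (inv_nonneg.mpr habs.le)
      refine h2.trans (le_of_eq ?_)
      rw [← sq_abs t]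
      field_simp
    · have h1 : HasDerivAt (fun t : ℝ => inner ℝ (un x) (‖x + t • v‖ • M (x + t • v)) -
          inner ℝ (un x) (‖x‖ • M x) - (inner ℝ (un x) (M x) + 1 / 2) * (t ^ 2 * ‖v‖ ^ 2 / ‖x‖))
          (inner ℝ (un x) (L v) - 0 - (inner ℝ (un x) (M x) + 1 / 2) * (0 * ‖v‖ ^ 2 / ‖x‖)) 0 := by
        have h2 : HasDerivAt (fun t : ℝ => inner ℝ (un x) (‖x + t • v‖ • M (x + t • v))) (inner ℝ (un x) (L v)) 0 := by
          have := (innerSL ℝ (un x)).hasFDerivAt.comp_hasDerivAt (0 : ℝ) hd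
          exact this
        have h3 : HasDerivAt (fun t : ℝ => t ^ 2) 0 0 := by
          have := hasDerivAt_pow 2 (0 : ℝ)
          simpa using this
        have h4 := ((h3.mul_const (‖v‖ ^ 2)).div_const ‖x‖).const_mul (inner ℝ (un x) (M x) + 1 / 2)
        exact (h2.sub (hasDerivAt_const (0 : ℝ) _)).sub h4
      have hmax : IsLocalMax (fun t : ℝ => inner ℝ (un x) (‖x + t • v‖ • M (x + t • v)) -
          inner ℝ (un x) (‖x‖ • M x) - (inner ℝ (un x) (M x) + 1 / 2) * (t ^ 2 * ‖v‖ ^ 2 / ‖x‖)) 0 := by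
        refine Filter.Eventually.of_forall ?_
        intro t
        simp only [zero_smul, add_zero, sub_self]
        have e0 : (inner ℝ (un x) (M x) + 1 / 2) * ((0 : ℝ) ^ 2 * ‖v‖ ^ 2 / ‖x‖) = 0 := by
          rw [zero_pow two_ne_zero]
          simp
        rw [e0, sub_zero]
        obtain ⟨g1, g2⟩ := DER_norm' x v hx hv t
        have hne := DER_ne x v hx hv t
        have g3 := hM.sup x (x + t • v) hx hne
        set z := x + t • v with hz
        rw [inner_add_right, inner_add_right, real_inner_smul_right, real_inner_smul_right,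
          real_inner_self_eq_norm_sq, DER_un x hx] at g3
        have g4 : ‖z‖ * inner ℝ (un x) (un z) = ‖x‖ := by
          rw [← real_inner_smul_right, DER_smul z hne, hz, inner_add_right, real_inner_smul_right, hv]
          have : inner ℝ (un x) x = ‖x‖ := by
            conv_lhs => rw [← DER_smul x hx]
            rw [real_inner_smul_right]
            have e : un (‖x‖ • un x) = un x := by rw [DER_smul x hx]
            rw [e, real_inner_self_eq_norm_sq, DER_un x hx]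
            ring
          rw [this]
          ring
        have hc : 0 ≤ inner ℝ (un x) (M x) + (1 / 2 : ℝ) := by
          have h1 : |inner ℝ (un x) (M x)| ≤ (1 / 2 : ℝ) := by
            refine (abs_real_inner_le_norm _ _).trans ?_
            rw [DER_un x hx, one_mul]
            exact hM.bdd x
          have h2 := (abs_le.mp h1).1
          linarith
        have g5 : ‖z‖ * (inner ℝ (un x) (M z) + 1 / 2 * inner ℝ (un x) (un z)) ≤
            ‖z‖ * (inner ℝ (un x) (M x) + 1 / 2 * 1 ^ 2) := mul_le_mul_of_nonneg_left g3 (norm_nonneg z)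
        have g6 : (inner ℝ (un x) (M x) + 1 / 2) * (‖z‖ - ‖x‖) ≤
            (inner ℝ (un x) (M x) + 1 / 2) * (t ^ 2 * ‖v‖ ^ 2 / ‖x‖) := mul_le_mul_of_nonneg_left g2 hc
        rw [real_inner_smul_right, real_inner_smul_right]
        nlinarith
      have h2 := hmax.hasDerivAt_eq_zero h1
      simpa using h2

end Pool.Agent.CX
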