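import Pool.Agent.helper25.CX.Spec

set_option autoImplicit false

open MeasureTheory Set Filter Topology
open scoped ENNReal
open Pool.Agent.helper81.CW

namespace Pool.Agent.CX

theorem DET_inj {n : ℕ} (S : E n →ₗ[ℝ] E n) (c : ℝ) (hc : 0 < c) (h : ∀ w, c * ‖w‖ ≤ ‖S w‖) :
    Function.Surjective S := by
  have hinj : Function.Injective S := by
    rw [injective_iff_map_eq_zero]
    intro w hw
    have h1 := h w
    rw [hw, norm_zero] at h1
    have h2 : ‖w‖ ≤ 0 := by
      by_contra h3
      rw [not_le] at h3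
      have := mul_pos hc h3
      linarith
    exact norm_le_zero_iff.mp h2
  exact LinearMap.injective_iff_surjective.mp hinj

/-- lower bound for determinants -/
theorem DET_low {n : ℕ} (S : E n →ₗ[ℝ] E n) (c : ℝ) (hc : 0 < c) (h : ∀ w, c * ‖w‖ ≤ ‖S w‖) :
    c ^ n ≤ |LinearMap.det S| := by
  have hsurj := DET_inj S c hc h
  have hsub : Metric.closedBall (0 : E n) c ⊆ S '' Metric.closedBall (0 : E n) 1 := by
    intro y hy
    obtain ⟨x, rfl⟩ := hsurj y
    refine ⟨x, ?_, rfl⟩
    rw [mem_closedBall_zero_iff] at hy ⊢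
    have h1 := h x
    by_contra h3
    rw [not_le] at h3
    have h4 : c * 1 < c * ‖x‖ := mul_lt_mul_of_pos_left h3 hc
    linarith
  have h1 := measure_mono (μ := (volume : Measure (E n))) hsub
  rw [Measure.addHaar_image_linearMap, Measure.addHaar_closedBall' _ _ hc.le, finrank_euclideanSpace_fin] at h1
  have hpos : volume (Metric.closedBall (0 : E n) 1) ≠ 0 := (Metric.measure_closedBall_pos volume _ one_pos).ne'
  have hfin : volume (Metric.closedBall (0 : E n) 1) ≠ ⊤ := measure_closedBall_lt_top.ne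
  have h2 : ENNReal.ofReal (c ^ n) ≤ ENNReal.ofReal |LinearMap.det S| :=
    (ENNReal.mul_le_mul_iff_left hpos hfin).mp h1
  exact (ENNReal.ofReal_le_ofReal_iff (abs_nonneg _)).mp h2

theorem DET : DET_stmt := by
  intro n L e he hLe hL
  set A : E n →L[ℝ] E n := (3 / 8 : ℝ) • ContinuousLinearMap.id ℝ (E n) + (1 / 4 : ℝ) • L with hA
  set B : E n →L[ℝ] E n := (3 / 8 : ℝ) • ContinuousLinearMap.id ℝ (E n) - (1 / 4 : ℝ) • L with hB
  have hee : inner ℝ e e = (1 : ℝ) := by
    rw [real_inner_self_eq_norm_sq, he]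
    norm_num
  have hAB : ∀ w, A (B w) = (9 / 64 : ℝ) • w - (1 / 16 : ℝ) • L (L w) := by
    intro w
    have hBw : B w = (3 / 8 : ℝ) • w - (1 / 4 : ℝ) • L w := by
      rw [hB]
      rfl
    have hAw : ∀ v, A v = (3 / 8 : ℝ) • v + (1 / 4 : ℝ) • L v := by
      intro v
      rw [hA]
      rfl
    rw [hAw, hBw, map_sub, map_smul, map_smul, smul_sub, smul_sub, smul_smul, smul_smul, smul_smul, smul_smul]
    have e1 : (3 / 8 : ℝ) * (3 / 8) = 9 / 64 := by norm_num
    have e2 : (1 / 4 : ℝ) * (1 / 4) = 1 / 16 := by norm_num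
    have e3 : (3 / 8 : ℝ) * (1 / 4) = (1 / 4) * (3 / 8) := by norm_num
    rw [e1, e2, e3]
    abel
  set T : E n →ₗ[ℝ] E n := (A : E n →ₗ[ℝ] E n) ∘ₗ (B : E n →ₗ[ℝ] E n) with hT
  have hTw : ∀ w, T w = (9 / 64 : ℝ) • w - (1 / 16 : ℝ) • L (L w) := fun w => hAB w
  have hdet : |A.det| * |B.det| = |LinearMap.det T| := by
    rw [hT, LinearMap.det_comp, abs_mul]
  rw [hdet]
  have hv : ∀ v, inner ℝ e v = (0 : ℝ) → inner ℝ e (T v) = (0 : ℝ) ∧ (1 / 8) * ‖v‖ ≤ ‖T v‖ := by
    intro v hv
    obtain ⟨h1, h2⟩ := hL v hv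
    obtain ⟨h3, h4⟩ := hL (L v) h2
    refine ⟨?_, ?_⟩
    · rw [hTw, inner_sub_right, real_inner_smul_right, real_inner_smul_right, hv, h4]
      ring
    · rw [hTw]
      have h5 := norm_sub_norm_le ((9 / 64 : ℝ) • v) ((1 / 16 : ℝ) • L (L v))
      rw [norm_smul, norm_smul] at h5
      rw [show ‖(9 / 64 : ℝ)‖ = 9 / 64 by rw [Real.norm_eq_abs]; norm_num,
        show ‖(1 / 16 : ℝ)‖ = 1 / 16 by rw [Real.norm_eq_abs]; norm_num] at h5
      linarith
  set t : ℝ := inner ℝ e (L e) with ht
  have htabs : |t| ≤ 1 / 2 := by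
    have := abs_real_inner_le_norm e (L e)
    rw [he, one_mul] at this
    exact this.trans hLe
  have ht2 : t ^ 2 ≤ 1 / 4 := by
    have := sq_abs t
    have h0 := abs_nonneg t
    nlinarith
  set b : ℝ := inner ℝ e (T e) with hb
  have hbval : b = 9 / 64 - t ^ 2 / 16 := by
    have hr : inner ℝ e (L e - t • e) = (0 : ℝ) := by
      rw [inner_sub_right, real_inner_smul_right, hee, ← ht]
      ring
    have h1 := (hL _ hr).2
    have h2 : inner ℝ e (L (L e)) = t ^ 2 := by
      rw [map_sub, map_smul, inner_sub_right, real_inner_smul_right, ← ht] at h1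
      nlinarith
    rw [hb, hTw, inner_sub_right, real_inner_smul_right, real_inner_smul_right, hee, h2]
    ring
  have hb8 : 1 / 8 ≤ b := by
    rw [hbval]
    linarith
  set p : E n := T e - b • e with hp
  have hpe : inner ℝ e p = (0 : ℝ) := by
    rw [hp, inner_sub_right, real_inner_smul_right, hee, ← hb]
    ring
  set f : Module.Dual ℝ (E n) := innerₛₗ ℝ e with hf
  have hfw : ∀ w, f w = inner ℝ e w := fun w => rfl
  set S : E n →ₗ[ℝ] E n := T - f.smulRight p with hS
  have hSw : ∀ w, S w = T w - (inner ℝ e w : ℝ) • p := by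
    intro w
    rw [hS, LinearMap.sub_apply, LinearMap.smulRight_apply, hfw]
  have hSlow : ∀ w, (1 / 8) * ‖w‖ ≤ ‖S w‖ := by
    intro w
    set a : ℝ := inner ℝ e w with ha
    set v : E n := w - a • e with hvdef
    have hve : inner ℝ e v = (0 : ℝ) := by
      rw [hvdef, inner_sub_right, real_inner_smul_right, hee, ← ha]
      ring
    have hw : w = a • e + v := by
      rw [hvdef]
      abel
    have hSe : S w = (a * b) • e + T v := by
      rw [hSw, ← ha, hp]
      conv_lhs => rw [hw]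
      rw [map_add, map_smul, smul_sub, smul_smul]
      abel
    obtain ⟨h1, h2⟩ := hv v hve
    have hn1 : ‖S w‖ ^ 2 = (a * b) ^ 2 + ‖T v‖ ^ 2 := by
      rw [hSe, norm_add_sq_real, real_inner_smul_left, h1, norm_smul, he, Real.norm_eq_abs, mul_one, sq_abs]
      ring
    have hn2 : ‖w‖ ^ 2 = a ^ 2 + ‖v‖ ^ 2 := by
      conv_lhs => rw [hw]
      rw [norm_add_sq_real, real_inner_smul_left, hve, norm_smul, he, Real.norm_eq_abs, mul_one, sq_abs]
      ring
    have h3 : ((1 / 8) * ‖v‖) ^ 2 ≤ ‖T v‖ ^ 2 := by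
      have := norm_nonneg v
      exact pow_le_pow_left₀ (by positivity) h2 2
    have h4 : a ^ 2 * (1 / 64) ≤ (a * b) ^ 2 := by
      rw [mul_pow]
      have : (1 / 64 : ℝ) ≤ b ^ 2 := by nlinarith
      exact mul_le_mul_of_nonneg_left this (sq_nonneg a)
    have h5 : ((1 / 8) * ‖w‖) ^ 2 ≤ ‖S w‖ ^ 2 := by
      rw [mul_pow, hn2, hn1]
      rw [mul_pow] at h3
      linarith
    exact (sq_le_sq₀ (by positivity) (norm_nonneg _)).mp h5
  obtain ⟨q, hq⟩ := DET_inj S (1 / 8) (by norm_num) hSlow p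
  have hqe : inner ℝ e q = (0 : ℝ) := by
    set a : ℝ := inner ℝ e q with ha
    set v : E n := q - a • e with hvdef
    have hve : inner ℝ e v = (0 : ℝ) := by
      rw [hvdef, inner_sub_right, real_inner_smul_right, hee, ← ha]
      ring
    have hw : q = a • e + v := by
      rw [hvdef]
      abel
    have hSe : S q = (a * b) • e + T v := by
      rw [hSw, ← ha, hp]
      conv_lhs => rw [hw]
      rw [map_add, map_smul, smul_sub, smul_smul]
      abel
    have h1 := (hv v hve).1
    have h2 : inner ℝ e (S q) = a * b := by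
      rw [hSe, inner_add_right, real_inner_smul_right, hee, h1]
      ring
    rw [hq, hpe] at h2
    have hb0 : b ≠ 0 := by
      intro h
      rw [h] at hb8
      norm_num at hb8
    exact (mul_eq_zero.mp h2.symm).resolve_right hb0
  have hTS : T = S ∘ₗ LinearMap.transvection f q := by
    ext1 w
    have h1 : LinearMap.transvection f q w = w + f w • q := rfl
    show T w = S (LinearMap.transvection f q w)
    rw [h1, map_add, map_smul, hq, hSw, hfw]
    abel
  have hdd : LinearMap.det T = LinearMap.det S := by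
    rw [hTS, LinearMap.det_comp, LinearMap.transvection.det, hfw, hqe, add_zero, mul_one]
  rw [hdd]
  exact DET_low S (1 / 8) (by norm_num) hSlow

end Pool.Agent.CX
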