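import Pool.Agent.helper25.CX.SpecB
import Pool.Agent.helper25.CX.DET

set_option autoImplicit false

open MeasureTheory Set Filter Topology
open scoped ENNReal
open Pool.Agent.helper81.CW

namespace Pool.Agent.CX

theorem DTG : DTG_stmt := by
  intro n c d hc0 hd0 hdc L e he hLe hL
  set κ : ℝ := c ^ 2 - d ^ 2 / 4 with hκ
  have hκ0 : 0 < κ := by
    rw [hκ]
    nlinarith
  set A : E n →L[ℝ] E n := c • ContinuousLinearMap.id ℝ (E n) + d • L with hA
  set B : E n →L[ℝ] E n := c • ContinuousLinearMap.id ℝ (E n) - d • L with hB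
  have hee : inner ℝ e e = (1 : ℝ) := by
    rw [real_inner_self_eq_norm_sq, he]
    norm_num
  have hAB : ∀ w, A (B w) = (c ^ 2) • w - (d ^ 2) • L (L w) := by
    intro w
    have hBw : B w = c • w - d • L w := by
      rw [hB]
      rfl
    have hAw : ∀ v, A v = c • v + d • L v := by
      intro v
      rw [hA]
      rfl
    rw [hAw, hBw, map_sub, map_smul, map_smul, smul_sub, smul_sub, smul_smul, smul_smul, smul_smul, smul_smul]
    rw [mul_comm d c, ← sq, ← sq]
    abel
  set T : E n →ₗ[ℝ] E n := (A : E n →ₗ[ℝ] E n) ∘ₗ (B : E n →ₗ[ℝ] E n) with hT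
  have hTw : ∀ w, T w = (c ^ 2) • w - (d ^ 2) • L (L w) := fun w => hAB w
  have hdet : |A.det| * |B.det| = |LinearMap.det T| := by
    rw [hT, LinearMap.det_comp, abs_mul]
  rw [hdet]
  have hv : ∀ v, inner ℝ e v = (0 : ℝ) → inner ℝ e (T v) = (0 : ℝ) ∧ κ * ‖v‖ ≤ ‖T v‖ := by
    intro v hv
    obtain ⟨h1, h2⟩ := hL v hv
    obtain ⟨h3, h4⟩ := hL (L v) h2
    refine ⟨?_, ?_⟩
    · rw [hTw, inner_sub_right, real_inner_smul_right, real_inner_smul_right, hv, h4]
      ring
    · rw [hTw]
      have h5 := norm_sub_norm_le ((c ^ 2) • v) ((d ^ 2) • L (L v))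
      rw [norm_smul, norm_smul, Real.norm_eq_abs, Real.norm_eq_abs, abs_of_nonneg (sq_nonneg c),
        abs_of_nonneg (sq_nonneg d)] at h5
      have h6 : ‖L (L v)‖ ≤ (1 / 4) * ‖v‖ := by linarith
      have h7 : d ^ 2 * ‖L (L v)‖ ≤ d ^ 2 * ((1 / 4) * ‖v‖) := mul_le_mul_of_nonneg_left h6 (sq_nonneg d)
      rw [hκ]
      linarith
  set t : ℝ := inner ℝ e (L e) with ht
  have htabs : |t| ≤ 1 / 2 := by
    have := abs_real_inner_le_norm e (L e)
    rw [he, one_mul] at this
    exact this.trans hLe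
  have ht2 : t ^ 2 ≤ 1 / 4 := by
    have := sq_abs t
    have h0 := abs_nonneg t
    nlinarith
  set b : ℝ := inner ℝ e (T e) with hb
  have hbval : b = c ^ 2 - d ^ 2 * t ^ 2 := by
    have hr : inner ℝ e (L e - t • e) = (0 : ℝ) := by
      rw [inner_sub_right, real_inner_smul_right, hee, ← ht]
      ring
    have h1 := (hL _ hr).2
    have h2 : inner ℝ e (L (L e)) = t ^ 2 := by
      rw [map_sub, map_smul, inner_sub_right, real_inner_smul_right, ← ht] at h1
      nlinarith
    rw [hb, hTw, inner_sub_right, real_inner_smul_right, real_inner_smul_right, hee, h2]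
    ring
  have hb8 : κ ≤ b := by
    rw [hbval, hκ]
    have : d ^ 2 * t ^ 2 ≤ d ^ 2 * (1 / 4) := mul_le_mul_of_nonneg_left ht2 (sq_nonneg d)
    linarith
  set p : E n := T e - b • e with hp
  have hpe : inner ℝ e p = (0 : ℝ) := by
    rw [hp, inner_sub_right, real_inner_smul_right, hee, ← hb]
    ring
  set f : Module.Dual ℝ (E n) := innerₛₗ ℝ e with hf
  have hfw : ∀ w, f w = inner ℝ e w := fun w => rfl
  set S : E n →ₗ[ℝ] E n := T - f.smulRight p with hS
  have hSw : ∀ w, S w = T w - (inner ℝ e w : ℝ) • p := by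
    intro w
    rw [hS, LinearMap.sub_apply, LinearMap.smulRight_apply, hfw]
  have hSlow : ∀ w, κ * ‖w‖ ≤ ‖S w‖ := by
    intro w
    set a : ℝ := inner ℝ e w with ha
    set v : E n := w - a • e with hvdef
    have hve : inner ℝ e v = (0 : ℝ) := by
      rw [hvdef, inner_sub_right, real_inner_smul_right, hee, ← ha]
      ring
    have hw : w = a • e + v := by
      rw [hvdef]
      abel
    have hSe : S w = (a * b) • e + T v := by
      rw [hSw, ← ha, hp]
      conv_lhs => rw [hw]
      rw [map_add, map_smul, smul_sub, smul_smul]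
      abel
    obtain ⟨h1, h2⟩ := hv v hve
    have hn1 : ‖S w‖ ^ 2 = (a * b) ^ 2 + ‖T v‖ ^ 2 := by
      rw [hSe, norm_add_sq_real, real_inner_smul_left, h1, norm_smul, he, Real.norm_eq_abs, mul_one, sq_abs]
      ring
    have hn2 : ‖w‖ ^ 2 = a ^ 2 + ‖v‖ ^ 2 := by
      conv_lhs => rw [hw]
      rw [norm_add_sq_real, real_inner_smul_left, hve, norm_smul, he, Real.norm_eq_abs, mul_one, sq_abs]
      ring
    have h3 : (κ * ‖v‖) ^ 2 ≤ ‖T v‖ ^ 2 := by
      have := norm_nonneg v
      exact pow_le_pow_left₀ (by positivity) h2 2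
    have h4 : a ^ 2 * κ ^ 2 ≤ (a * b) ^ 2 := by
      rw [mul_pow]
      have : κ ^ 2 ≤ b ^ 2 := pow_le_pow_left₀ hκ0.le hb8 2
      exact mul_le_mul_of_nonneg_left this (sq_nonneg a)
    have h5 : (κ * ‖w‖) ^ 2 ≤ ‖S w‖ ^ 2 := by
      rw [mul_pow, hn2, hn1]
      rw [mul_pow] at h3
      linarith
    exact (sq_le_sq₀ (by positivity) (norm_nonneg _)).mp h5
  obtain ⟨q, hq⟩ := DET_inj S κ hκ0 hSlow p
  have hqe : inner ℝ e q = (0 : ℝ) := by
    set a : ℝ := inner ℝ e q with ha
    set v : E n := q - a • e with hvdef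
    have hve : inner ℝ e v = (0 : ℝ) := by
      rw [hvdef, inner_sub_right, real_inner_smul_right, hee, ← ha]
      ring
    have hw : q = a • e + v := by
      rw [hvdef]
      abel
    have hSe : S q = (a * b) • e + T v := by
      rw [hSw, ← ha, hp]
      conv_lhs => rw [hw]
      rw [map_add, map_smul, smul_sub, smul_smul]
      abel
    have h1 := (hv v hve).1
    have h2 : inner ℝ e (S q) = a * b := by
      rw [hSe, inner_add_right, real_inner_smul_right, hee, h1]
      ring
    rw [hq, hpe] at h2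
    have hb0 : b ≠ 0 := by
      intro h
      rw [h] at hb8
      linarith
    exact (mul_eq_zero.mp h2.symm).resolve_right hb0
  have hTS : T = S ∘ₗ LinearMap.transvection f q := by
    ext1 w
    have h1 : LinearMap.transvection f q w = w + f w • q := rfl
    show T w = S (LinearMap.transvection f q w)
    rw [h1, map_add, map_smul, hq, hSw, hfw]
    abel
  have hdd : LinearMap.det T = LinearMap.det S := by
    rw [hTS, LinearMap.det_comp, LinearMap.transvection.det, hfw, hqe, add_zero, mul_one]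
  rw [hdd]
  exact DET_low S κ hκ0 hSlow

end Pool.Agent.CX
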