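import Pool.Agent.helper25.CX.Spec

set_option autoImplicit false

open MeasureTheory Set Filter Topology
open scoped ENNReal
open Pool.Agent.helper81.CW

namespace Pool.Agent.CX

theorem GLP_un {n : ℕ} (x y : E n) (hx : x ≠ 0) (hy : y ≠ 0) : ‖y‖ * ‖un x - un y‖ ≤ 2 * ‖x - y‖ := by
  have hx0 : 0 < ‖x‖ := norm_pos_iff.mpr hx
  have hy0 : 0 < ‖y‖ := norm_pos_iff.mpr hy
  have h1 : ‖y‖ * ‖un x - un y‖ = ‖(‖y‖ * ‖x‖⁻¹) • x - y‖ := by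
    calc ‖y‖ * ‖un x - un y‖ = ‖‖y‖ • (un x - un y)‖ := by rw [norm_smul, norm_norm]
      _ = ‖(‖y‖ * ‖x‖⁻¹) • x - y‖ := by
          unfold un
          rw [smul_sub, smul_smul, smul_smul, mul_inv_cancel₀ hy0.ne', one_smul]
  have h2 : (‖y‖ * ‖x‖⁻¹) • x - y = (x - y) + (‖y‖ * ‖x‖⁻¹ - 1) • x := by
    rw [sub_smul, one_smul]
    abel
  have h3 : ‖(‖y‖ * ‖x‖⁻¹ - 1) • x‖ = |‖y‖ - ‖x‖| := by
    have e : ‖y‖ - ‖x‖ = (‖y‖ * ‖x‖⁻¹ - 1) * ‖x‖ := by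
      rw [sub_mul, mul_assoc, inv_mul_cancel₀ hx0.ne', mul_one, one_mul]
    rw [norm_smul, Real.norm_eq_abs, e, abs_mul, abs_norm]
  have h4 : |‖y‖ - ‖x‖| ≤ ‖x - y‖ := by
    rw [norm_sub_rev]
    exact abs_norm_sub_norm_le y x
  rw [h1, h2]
  refine (norm_add_le _ _).trans ?_
  rw [h3]
  linarith

theorem GLP : GLP_stmt := by
  intro n M hM x y
  by_cases hx : x = 0
  · subst hx
    rw [norm_zero, zero_smul, zero_sub, norm_neg, norm_smul, norm_norm, zero_sub, norm_neg]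
    have h1 := hM.bdd y
    have h2 : ‖y‖ * ‖M y‖ ≤ ‖y‖ * (1 / 2) := mul_le_mul_of_nonneg_left h1 (norm_nonneg y)
    have h3 := norm_nonneg y
    linarith
  by_cases hy : y = 0
  · subst hy
    rw [norm_zero, zero_smul, sub_zero, norm_smul, norm_norm, sub_zero]
    have h1 := hM.bdd x
    have h2 : ‖x‖ * ‖M x‖ ≤ ‖x‖ * (1 / 2) := mul_le_mul_of_nonneg_left h1 (norm_nonneg x)
    have h3 := norm_nonneg x
    linarith
  have h1 : ‖x‖ • M x - ‖y‖ • M y = (‖x‖ - ‖y‖) • M x + ‖y‖ • (M x - M y) := by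
    rw [sub_smul, smul_sub]
    abel
  rw [h1]
  refine (norm_add_le _ _).trans ?_
  rw [norm_smul, norm_smul, norm_norm, Real.norm_eq_abs]
  have h2 : |‖x‖ - ‖y‖| * ‖M x‖ ≤ ‖x - y‖ * (1 / 2) :=
    mul_le_mul (abs_norm_sub_norm_le x y) (hM.bdd x) (norm_nonneg _) (norm_nonneg _)
  have h3 : ‖y‖ * ‖M x - M y‖ ≤ ‖y‖ * ((1 / 2) * ‖un x - un y‖) :=
    mul_le_mul_of_nonneg_left (hM.lip x y hx hy) (norm_nonneg _)
  have h4 := GLP_un x y hx hy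
  linarith

end Pool.Agent.CX
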