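import Pool.Agent.helper25.CX.Spec
import Pool.Agent.helper63.CW.G3

set_option autoImplicit false

open MeasureTheory Set Filter Topology
open scoped ENNReal
open Pool.Agent.helper81.CW

namespace Pool.Agent.CX

theorem GVA (hG1 : G1_stmt) (hG2 : G2_stmt) : GVA_stmt := by
  intro n g R hR hg
  obtain ⟨hprob, _⟩ := hG1 n
  -- a function vanishing at the origin
  set g0 : E n → ℝ := fun x => g x - g 0 with hg0
  have hg0L : ∀ x y, |g0 x - g0 y| ≤ R * ‖x - y‖ := by
    intro x y
    have e : g0 x - g0 y = g x - g y := by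
      rw [hg0]
      ring
    rw [e]
    exact hg x y
  have h00 : g0 0 = 0 := sub_self _
  have hcont : Continuous g0 := G3_cont hg0L
  have hsc0 : ∀ l : ℝ, ∀ x y : E n, |l * g0 x - l * g0 y| ≤ (|l| * R) * ‖x - y‖ := by
    intro l x y
    rw [← mul_sub, abs_mul, mul_assoc]
    exact mul_le_mul_of_nonneg_left (hg0L x y) (abs_nonneg l)
  have hint0 : ∀ l : ℝ, Integrable (fun x => Real.exp (l * g0 x)) (gm n) := by
    intro l
    exact G3_exp (mul_nonneg (abs_nonneg l) hR) (hsc0 l) (by rw [h00, mul_zero])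
  have hsum0 : Integrable (fun x => Real.exp (1 * g0 x) + Real.exp (-1 * g0 x)) (gm n) := (hint0 1).add (hint0 (-1))
  have hsq0 : Integrable (fun x => g0 x ^ 2) (gm n) := by
    refine Integrable.mono' hsum0 ?_ ?_
    · exact (by fun_prop : Continuous fun x => g0 x ^ 2).aestronglyMeasurable
    · refine Filter.Eventually.of_forall fun x => ?_
      rw [Real.norm_of_nonneg (sq_nonneg _)]
      have := G3_two_add_sq_le (g0 x)
      rw [one_mul, neg_one_mul]
      linarith
  have hi0 : Integrable g0 (gm n) := by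
    refine Integrable.mono' hsum0 hcont.aestronglyMeasurable ?_
    refine Filter.Eventually.of_forall fun x => ?_
    rw [Real.norm_eq_abs, one_mul, neg_one_mul]
    have h1 := G3_two_add_sq_le (g0 x)
    have h2 : |g0 x| ≤ 2 + g0 x ^ 2 := by
      have := sq_abs (g0 x)
      nlinarith [sq_nonneg (|g0 x| - 1), abs_nonneg (g0 x)]
    linarith
  have hgi : Integrable g (gm n) := by
    have h1 : Integrable (fun x => g0 x + g 0) (gm n) := hi0.add (integrable_const _)
    refine h1.congr (Filter.Eventually.of_forall fun x => ?_)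
    show g x - g 0 + g 0 = g x
    ring
  have hgsq : Integrable (fun x => g x ^ 2) (gm n) := by
    have h1 : Integrable (fun x => g0 x ^ 2 + (2 * g 0) * g0 x + g 0 ^ 2) (gm n) :=
      (hsq0.add (hi0.const_mul _)).add (integrable_const _)
    refine h1.congr (Filter.Eventually.of_forall fun x => ?_)
    show (g x - g 0) ^ 2 + (2 * g 0) * (g x - g 0) + g 0 ^ 2 = g x ^ 2
    ring
  refine ⟨hgi, hgsq, ?_⟩
  -- the centred function
  set m : ℝ := ∫ x, g x ∂(gm n) with hm
  set h : E n → ℝ := fun x => g x - m with hh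
  have hhi : Integrable h (gm n) := hgi.sub (integrable_const _)
  have hh0 : ∫ x, h x ∂(gm n) = 0 := by
    rw [hh, integral_sub hgi (integrable_const _), integral_const, probReal_univ, one_smul, ← hm, sub_self]
  have hhL : ∀ x y, |h x - h y| ≤ R * ‖x - y‖ := by
    intro x y
    have e : h x - h y = g x - g y := by
      rw [hh]
      ring
    rw [e]
    exact hg x y
  have hhc : Continuous h := G3_cont hhL
  have hhsq : Integrable (fun x => h x ^ 2) (gm n) := by
    have h1 : Integrable (fun x => g x ^ 2 - (2 * m) * g x + m ^ 2) (gm n) :=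
      (hgsq.sub (hgi.const_mul _)).add (integrable_const _)
    refine h1.congr (Filter.Eventually.of_forall fun x => ?_)
    show g x ^ 2 - (2 * m) * g x + m ^ 2 = (g x - m) ^ 2
    ring
  have hint : ∀ l : ℝ, Integrable (fun x => Real.exp (l * h x)) (gm n) := by
    intro l
    have h1 := (hint0 l).const_mul (Real.exp (l * (g 0 - m)))
    refine h1.congr (Filter.Eventually.of_forall fun x => ?_)
    show Real.exp (l * (g 0 - m)) * Real.exp (l * (g x - g 0)) = Real.exp (l * (g x - m))
    rw [← Real.exp_add]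
    congr 1
    ring
  have hone : ∀ l : ℝ, 1 ≤ ∫ x, Real.exp (l * h x) ∂(gm n) := by
    intro l
    have h1 : ∫ x, (1 + l * h x) ∂(gm n) ≤ ∫ x, Real.exp (l * h x) ∂(gm n) := by
      refine integral_mono ((integrable_const _).add (hhi.const_mul _)) (hint l) ?_
      intro x
      show 1 + l * h x ≤ Real.exp (l * h x)
      have := Real.add_one_le_exp (l * h x)
      linarith
    rw [integral_add (integrable_const _) (hhi.const_mul _), integral_const_mul, hh0, mul_zero, add_zero,
      integral_const, probReal_univ, one_smul] at h1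
    exact h1
  have hb : ∀ l : ℝ, 2 + l ^ 2 * ∫ x, h x ^ 2 ∂(gm n) ≤ 1 + Real.exp (l ^ 2 * R ^ 2) := by
    intro l
    have e0 : ∀ x, Real.exp (-(l * h x)) = Real.exp (-l * h x) := by
      intro x
      rw [neg_mul]
    have h1 : ∫ x, (2 + l ^ 2 * h x ^ 2) ∂(gm n) ≤
        ∫ x, (Real.exp (l * h x) + Real.exp (-l * h x)) ∂(gm n) := by
      refine integral_mono ((integrable_const _).add (hhsq.const_mul _)) ((hint l).add (hint (-l))) ?_
      intro x
      have := G3_two_add_sq_le (l * h x)
      show 2 + l ^ 2 * h x ^ 2 ≤ Real.exp (l * h x) + Real.exp (-l * h x)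
      rw [mul_pow, e0] at this
      exact this
    rw [integral_add (integrable_const _) (hhsq.const_mul _), integral_add (hint l) (hint (-l)),
      integral_const_mul, integral_const, probReal_univ, one_smul] at h1
    have hsc : ∀ x y : E n, |l * h x - l * h y| ≤ (|l| * R) * ‖x - y‖ := by
      intro x y
      rw [← mul_sub, abs_mul, mul_assoc]
      exact mul_le_mul_of_nonneg_left (hhL x y) (abs_nonneg l)
    have h2 := hG2 n (fun x => l * h x) (|l| * R) (mul_nonneg (abs_nonneg l) hR) hsc
    simp only [e0] at h2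
    rw [mul_pow, sq_abs] at h2
    have h3 := hone l
    have h4 := hone (-l)
    nlinarith
  -- let `l` tend to `0`
  have hV : ∫ x, h x ^ 2 ∂(gm n) = ∫ x, g x ^ 2 ∂(gm n) - m ^ 2 := by
    have h1 : ∫ x, h x ^ 2 ∂(gm n) = ∫ x, (g x ^ 2 - (2 * m) * g x + m ^ 2) ∂(gm n) := by
      refine integral_congr_ae (Filter.Eventually.of_forall fun x => ?_)
      show (g x - m) ^ 2 = g x ^ 2 - (2 * m) * g x + m ^ 2
      ring
    have hA : Integrable (fun x => g x ^ 2 - (2 * m) * g x) (gm n) := hgsq.sub (hgi.const_mul _)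
    have hB : Integrable (fun x => (2 * m) * g x) (gm n) := hgi.const_mul _
    rw [h1, integral_add hA (integrable_const _), integral_sub hgsq hB,
      integral_const_mul, ← hm, integral_const, probReal_univ, one_smul]
    ring
  have hI : 0 ≤ ∫ x, h x ^ 2 ∂(gm n) := integral_nonneg fun x => sq_nonneg _
  suffices hfin : ∫ x, h x ^ 2 ∂(gm n) ≤ R ^ 2 by
    rw [hV] at hfin
    linarith
  set I := ∫ x, h x ^ 2 ∂(gm n) with hIdef
  refine le_of_forall_pos_le_add fun ε hε => ?_
  set t := min (1 / (R ^ 2 + 1)) (ε / (R ^ 4 + 1)) with ht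
  have ht0 : 0 < t := lt_min (by positivity) (by positivity)
  have ht1 : t * (R ^ 2 + 1) ≤ 1 := by
    have h1 : t ≤ 1 / (R ^ 2 + 1) := min_le_left _ _
    rwa [le_div_iff₀ (by positivity)] at h1
  have ht2 : t * (R ^ 4 + 1) ≤ ε := by
    have h1 : t ≤ ε / (R ^ 4 + 1) := min_le_right _ _
    rwa [le_div_iff₀ (by positivity)] at h1
  have h1 := hb (Real.sqrt t)
  rw [Real.sq_sqrt ht0.le] at h1
  have hs0 : 0 ≤ t * R ^ 2 := by positivity
  have hs1 : t * R ^ 2 ≤ 1 := by nlinarith
  have h2 : Real.exp (t * R ^ 2) ≤ 1 + t * R ^ 2 + (t * R ^ 2) ^ 2 := by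
    have h3 := Real.abs_exp_sub_one_sub_id_le (x := t * R ^ 2)
      (by rw [abs_of_nonneg hs0]; exact hs1)
    have h4 := (abs_le.1 h3).2
    linarith
  have h5 : t * I ≤ t * (R ^ 2 + ε) := by
    have h6 : t * I ≤ t * R ^ 2 + (t * R ^ 2) ^ 2 := by linarith
    have h7 : (t * R ^ 2) ^ 2 = t * (t * R ^ 4) := by ring
    have h8 : t * R ^ 4 ≤ ε := by nlinarith [sq_nonneg (R ^ 2)]
    have h9 : t * (t * R ^ 4) ≤ t * ε := mul_le_mul_of_nonneg_left h8 ht0.le
    rw [h7] at h6
    linarith
  exact le_of_mul_le_mul_left h5 ht0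

end Pool.Agent.CX
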