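import Pool.Agent.helper25.CX.SpecB

set_option autoImplicit false

open MeasureTheory Set Filter Topology
open scoped ENNReal
open Pool.Agent.helper81.CW

namespace Pool.Agent.CX

theorem IJG_un {n : ℕ} (x : E n) (hx : x ≠ 0) : ‖un x‖ = 1 := by
  unfold un
  rw [norm_smul, norm_inv, norm_norm, inv_mul_cancel₀ (norm_ne_zero_iff.mpr hx)]

theorem IJG_smul {n : ℕ} (x : E n) (hx : x ≠ 0) : ‖x‖ • un x = x := by
  unfold un
  rw [smul_smul, mul_inv_cancel₀ (norm_ne_zero_iff.mpr hx), one_smul]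

/-- `Pg a b M x = ‖x‖ q x` -/
theorem IJG_q {n : ℕ} (a b : ℝ) (M : E n → E n) (x : E n) (hx : x ≠ 0) :
    Pg a b M x = ‖x‖ • (a • un x + b • M x) := by
  have h2 : a • x = (‖x‖ * a) • un x := by
    rw [mul_comm, mul_smul, IJG_smul x hx]
  unfold Pg
  rw [smul_add, smul_smul, smul_smul, ← h2, mul_comm ‖x‖ b]

theorem IJG_key {n : ℕ} {a b : ℝ} (hb : 0 ≤ b) {M : E n → E n} (hM : EvenMap M) (x y : E n)
    (hx : x ≠ 0) (hy : y ≠ 0) :
    inner ℝ (un y) (a • un x + b • M x) ≤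
      (a - b / 2) * inner ℝ (un y) (un x) + b * inner ℝ (un y) (M y) + b / 2 := by
  have h1 := hM.sup y x hy hx
  rw [inner_add_right, inner_add_right, real_inner_smul_right, real_inner_smul_right,
    real_inner_self_eq_norm_sq, IJG_un y hy] at h1
  rw [inner_add_right, real_inner_smul_right, real_inner_smul_right]
  have h2 := mul_le_mul_of_nonneg_left h1 hb
  linarith

theorem IJG_self {n : ℕ} (a b : ℝ) (M : E n → E n) (y : E n) (hy : y ≠ 0) :
    inner ℝ (un y) (a • un y + b • M y) = a + b * inner ℝ (un y) (M y) := by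
  rw [inner_add_right, real_inner_smul_right, real_inner_smul_right, real_inner_self_eq_norm_sq, IJG_un y hy]
  ring

theorem IJG_pos {n : ℕ} {a b : ℝ} (ha : 0 < a) (hb : 0 ≤ b) (hab : b ≤ a) {M : E n → E n} (hM : EvenMap M)
    (y : E n) (hy : y ≠ 0) : 0 < a + b * inner ℝ (un y) (M y) := by
  have h1 : |inner ℝ (un y) (M y)| ≤ (1 / 2 : ℝ) := by
    refine (abs_real_inner_le_norm _ _).trans ?_
    rw [IJG_un y hy, one_mul]
    exact hM.bdd y
  have h2 := (abs_le.mp h1).1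
  have h3 : b * (-(1 / 2 : ℝ)) ≤ b * inner ℝ (un y) (M y) := mul_le_mul_of_nonneg_left h2 hb
  linarith

theorem IJG_le {n : ℕ} {a b : ℝ} (ha : 0 < a) (hb : 0 ≤ b) (hab : b ≤ a) {M : E n → E n} (hM : EvenMap M)
    (x y : E n) (hx : x ≠ 0) (hy : y ≠ 0)
    (h : ‖x‖ • (a • un x + b • M x) = ‖y‖ • (a • un y + b • M y)) : ‖y‖ ≤ ‖x‖ := by
  by_contra hlt
  rw [not_le] at hlt
  have hx0 : 0 < ‖x‖ := norm_pos_iff.mpr hx
  have h1 := congrArg (fun z => inner ℝ (un y) z) h
  simp only [real_inner_smul_right] at h1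
  have h2 := IJG_key (a := a) hb hM x y hx hy
  have h3 : inner ℝ (un y) (un x) ≤ (1 : ℝ) := by
    refine (real_inner_le_norm _ _).trans ?_
    rw [IJG_un y hy, IJG_un x hx, one_mul]
  have h4 := IJG_pos ha hb hab hM y hy
  have h5 := IJG_self a b M y hy
  have h6 : inner ℝ (un y) (a • un x + b • M x) ≤ a + b * inner ℝ (un y) (M y) := by
    have h7 : (a - b / 2) * inner ℝ (un y) (un x) ≤ (a - b / 2) * 1 :=
      mul_le_mul_of_nonneg_left h3 (by linarith)
    linarith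
  have h7 : ‖x‖ * inner ℝ (un y) (a • un x + b • M x) ≤ ‖x‖ * (a + b * inner ℝ (un y) (M y)) :=
    mul_le_mul_of_nonneg_left h6 hx0.le
  have h8 : ‖x‖ * (a + b * inner ℝ (un y) (M y)) < ‖y‖ * (a + b * inner ℝ (un y) (M y)) :=
    mul_lt_mul_of_pos_right hlt h4
  rw [h5] at h1
  linarith

theorem IJG : IJG_stmt := by
  intro n a b ha hb hab M hM x hx y hy hxy
  have hx' : x ≠ 0 := hx
  have hy' : y ≠ 0 := hy
  rw [IJG_q a b M x hx', IJG_q a b M y hy'] at hxy
  have hn : ‖x‖ = ‖y‖ := le_antisymm (IJG_le ha hb hab hM y x hy' hx' hxy.symm) (IJG_le ha hb hab hM x y hx' hy' hxy)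
  have hy0 : 0 < ‖y‖ := norm_pos_iff.mpr hy'
  rw [hn] at hxy
  have hq := smul_right_injective (E n) hy0.ne' hxy
  have hq' : a • un x + b • M x = a • un y + b • M y := hq
  have h2 := IJG_key (a := a) hb hM x y hx' hy'
  rw [hq', IJG_self a b M y hy'] at h2
  have hab2 : 0 < a - b / 2 := by linarith
  have h3 : (1 : ℝ) ≤ inner ℝ (un y) (un x) := by
    have h5 : (a - b / 2) * 1 ≤ (a - b / 2) * inner ℝ (un y) (un x) := by linarith
    exact le_of_mul_le_mul_left h5 hab2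
  have h4 : ‖un y - un x‖ ^ 2 ≤ 0 := by
    rw [norm_sub_sq_real, IJG_un y hy', IJG_un x hx']
    linarith
  have h5 : un y - un x = 0 := by
    have : ‖un y - un x‖ = 0 := by
      have := sq_nonneg ‖un y - un x‖
      exact pow_eq_zero_iff (two_ne_zero) |>.mp (le_antisymm h4 this)
    exact norm_eq_zero.mp this
  have h6 : un y = un x := sub_eq_zero.mp h5
  rw [← IJG_smul x hx', ← IJG_smul y hy', ← h6, hn]

end Pool.Agent.CX
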