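import Pool.Agent.helper25.CX.Spec

set_option autoImplicit false

open MeasureTheory Set Filter Topology
open scoped ENNReal
open Pool.Agent.helper81.CW

namespace Pool.Agent.CX

/-- the rotation -/
noncomputable def ROT_R (n : ℕ) (θ : ℝ) : E n × E n →ₗ[ℝ] E n × E n where
  toFun p := (Real.cos θ • p.1 + Real.sin θ • p.2, -Real.sin θ • p.1 + Real.cos θ • p.2)
  map_add' p q := by
    ext1
    · show Real.cos θ • (p.1 + q.1) + Real.sin θ • (p.2 + q.2) =
        (Real.cos θ • p.1 + Real.sin θ • p.2) + (Real.cos θ • q.1 + Real.sin θ • q.2)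
      rw [smul_add, smul_add]
      abel
    · show -Real.sin θ • (p.1 + q.1) + Real.cos θ • (p.2 + q.2) =
        (-Real.sin θ • p.1 + Real.cos θ • p.2) + (-Real.sin θ • q.1 + Real.cos θ • q.2)
      rw [smul_add, smul_add]
      abel
  map_smul' c p := by
    ext1
    · show Real.cos θ • (c • p.1) + Real.sin θ • (c • p.2) = c • (Real.cos θ • p.1 + Real.sin θ • p.2)
      rw [smul_add, smul_comm c, smul_comm c]
    · show -Real.sin θ • (c • p.1) + Real.cos θ • (c • p.2) = c • (-Real.sin θ • p.1 + Real.cos θ • p.2)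
      rw [smul_add, smul_comm c, smul_comm c]

theorem ROT_apply (n : ℕ) (θ : ℝ) (x y : E n) :
    ROT_R n θ (x, y) = (Real.cos θ • x + Real.sin θ • y, -Real.sin θ • x + Real.cos θ • y) := rfl

theorem ROT_norm (n : ℕ) (θ : ℝ) (p : E n × E n) :
    ‖(ROT_R n θ p).1‖ ^ 2 + ‖(ROT_R n θ p).2‖ ^ 2 = ‖p.1‖ ^ 2 + ‖p.2‖ ^ 2 := by
  show ‖Real.cos θ • p.1 + Real.sin θ • p.2‖ ^ 2 + ‖-Real.sin θ • p.1 + Real.cos θ • p.2‖ ^ 2 = _
  rw [norm_add_sq_real, norm_add_sq_real, real_inner_smul_left, real_inner_smul_left, real_inner_smul_right,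
    real_inner_smul_right, norm_smul, norm_smul, norm_smul, norm_smul, mul_pow, mul_pow, mul_pow, mul_pow,
    Real.norm_eq_abs, Real.norm_eq_abs, Real.norm_eq_abs, sq_abs, sq_abs, sq_abs]
  have h := Real.sin_sq_add_cos_sq θ
  have h1 : Real.cos θ ^ 2 = 1 - Real.sin θ ^ 2 := by linarith
  rw [h1]
  ring

theorem ROT_inv (n : ℕ) (θ : ℝ) (p : E n × E n) : ROT_R n θ (ROT_R n (-θ) p) = p := by
  obtain ⟨x, y⟩ := p
  rw [ROT_apply, ROT_apply, Real.cos_neg, Real.sin_neg]
  have h := Real.sin_sq_add_cos_sq θ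
  ext1
  · show Real.cos θ • (Real.cos θ • x + -Real.sin θ • y) + Real.sin θ • (- -Real.sin θ • x + Real.cos θ • y) = x
    have e : Real.cos θ • (Real.cos θ • x + -Real.sin θ • y) + Real.sin θ • (- -Real.sin θ • x + Real.cos θ • y) =
        (Real.sin θ ^ 2 + Real.cos θ ^ 2) • x := by module
    rw [e, h, one_smul]
  · show -Real.sin θ • (Real.cos θ • x + -Real.sin θ • y) + Real.cos θ • (- -Real.sin θ • x + Real.cos θ • y) = y
    have e : -Real.sin θ • (Real.cos θ • x + -Real.sin θ • y) + Real.cos θ • (- -Real.sin θ • x + Real.cos θ • y) =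
        (Real.sin θ ^ 2 + Real.cos θ ^ 2) • y := by module
    rw [e, h, one_smul]

theorem ROT_image (n : ℕ) (θ : ℝ) :
    ROT_R n θ '' {p : E n × E n | ‖p.1‖ ^ 2 + ‖p.2‖ ^ 2 ≤ 1} = {p : E n × E n | ‖p.1‖ ^ 2 + ‖p.2‖ ^ 2 ≤ 1} := by
  ext q
  constructor
  · rintro ⟨p, hp, rfl⟩
    show ‖(ROT_R n θ p).1‖ ^ 2 + ‖(ROT_R n θ p).2‖ ^ 2 ≤ 1
    rw [ROT_norm]
    exact hp
  · intro hq
    refine ⟨ROT_R n (-θ) q, ?_, ROT_inv n θ q⟩
    show ‖(ROT_R n (-θ) q).1‖ ^ 2 + ‖(ROT_R n (-θ) q).2‖ ^ 2 ≤ 1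
    rw [ROT_norm]
    exact hq

theorem ROT_haar (n : ℕ) : (volume : Measure (E n × E n)).IsAddHaarMeasure := by
  rw [Measure.volume_eq_prod]
  infer_instance

theorem ROT_det (n : ℕ) (θ : ℝ) : |LinearMap.det (ROT_R n θ)| = 1 := by
  have := ROT_haar n
  set B : Set (E n × E n) := {p : E n × E n | ‖p.1‖ ^ 2 + ‖p.2‖ ^ 2 ≤ 1} with hB
  have h1 := Measure.addHaar_image_linearMap (volume : Measure (E n × E n)) (ROT_R n θ) B
  rw [hB, ROT_image, ← hB] at h1
  have hpos : volume B ≠ 0 := by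
    have hU : IsOpen {p : E n × E n | ‖p.1‖ ^ 2 + ‖p.2‖ ^ 2 < 1} := by
      apply isOpen_lt
      · fun_prop
      · exact continuous_const
    have hne : ({p : E n × E n | ‖p.1‖ ^ 2 + ‖p.2‖ ^ 2 < 1}).Nonempty := by
      refine ⟨0, ?_⟩
      show ‖(0 : E n × E n).1‖ ^ 2 + ‖(0 : E n × E n).2‖ ^ 2 < 1
      simp
    have hsub : {p : E n × E n | ‖p.1‖ ^ 2 + ‖p.2‖ ^ 2 < 1} ⊆ B := by
      intro p hp
      have h2 : ‖p.1‖ ^ 2 + ‖p.2‖ ^ 2 < 1 := hp
      exact h2.le
    have h3 := hU.measure_pos volume hne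
    have h4 := measure_mono (μ := volume) hsub
    exact (lt_of_lt_of_le h3 h4).ne'
  have hfin : volume B ≠ ⊤ := by
    have hb : Bornology.IsBounded B := by
      refine (Metric.isBounded_closedBall (x := (0 : E n × E n)) (r := 1)).subset ?_
      intro p hp
      have h2 : ‖p.1‖ ^ 2 + ‖p.2‖ ^ 2 ≤ 1 := hp
      rw [mem_closedBall_zero_iff, Prod.norm_def]
      have h3 := sq_nonneg ‖p.1‖
      have h4 := sq_nonneg ‖p.2‖
      refine max_le ?_ ?_
      · have : ‖p.1‖ ^ 2 ≤ 1 ^ 2 := by linarith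
        exact (sq_le_sq₀ (norm_nonneg _) zero_le_one).mp this
      · have : ‖p.2‖ ^ 2 ≤ 1 ^ 2 := by linarith
        exact (sq_le_sq₀ (norm_nonneg _) zero_le_one).mp this
    exact hb.measure_lt_top.ne
  have h2 : ENNReal.ofReal |LinearMap.det (ROT_R n θ)| = 1 := by
    have h3 : 1 * volume B = ENNReal.ofReal |LinearMap.det (ROT_R n θ)| * volume B := by
      rw [one_mul]
      exact h1
    exact ((ENNReal.mul_left_inj hpos hfin).mp h3).symm
  have h3 := congrArg ENNReal.toReal h2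
  rw [ENNReal.toReal_ofReal (abs_nonneg _)] at h3
  simpa using h3

theorem ROT_mp (n : ℕ) (θ : ℝ) : MeasurePreserving (ROT_R n θ) (volume : Measure (E n × E n)) volume := by
  have := ROT_haar n
  have hd := ROT_det n θ
  have h0 : LinearMap.det (ROT_R n θ) ≠ 0 := by
    intro h
    rw [h, abs_zero] at hd
    exact zero_ne_one hd
  have hc : Continuous (ROT_R n θ) := LinearMap.continuous_of_finiteDimensional _
  refine ⟨hc.measurable, ?_⟩
  rw [Measure.map_linearMap_addHaar_eq_smul_addHaar volume h0, abs_inv, hd, inv_one, ENNReal.ofReal_one, one_smul]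

/-- the density -/
noncomputable def ROT_rho (n : ℕ) (x : E n) : ℝ≥0∞ :=
  ENNReal.ofReal (Real.exp (-‖x‖ ^ 2 / 2) / Real.sqrt (2 * Real.pi) ^ n)

theorem ROT_rho_meas (n : ℕ) : Measurable (ROT_rho n) := by
  have h : Continuous (ROT_rho n) := by
    unfold ROT_rho
    apply ENNReal.continuous_ofReal.comp
    fun_prop
  exact h.measurable

theorem ROT_rho_inv (n : ℕ) (θ : ℝ) (p : E n × E n) :
    ROT_rho n (ROT_R n θ p).1 * ROT_rho n (ROT_R n θ p).2 = ROT_rho n p.1 * ROT_rho n p.2 := by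
  unfold ROT_rho
  rw [← ENNReal.ofReal_mul (by positivity), ← ENNReal.ofReal_mul (by positivity)]
  congr 1
  rw [div_mul_div_comm, div_mul_div_comm, ← Real.exp_add, ← Real.exp_add]
  congr 2
  have := ROT_norm n θ p
  linarith

theorem ROT_int (n : ℕ) (H : E n × E n → ℝ≥0∞) (hH : Measurable H) :
    ∫⁻ x, ∫⁻ y, H (x, y) ∂(gm n) ∂(gm n) = ∫⁻ p : E n × E n, ROT_rho n p.1 * ROT_rho n p.2 * H p := by
  have hg : gm n = volume.withDensity (ROT_rho n) := rfl
  have hr := ROT_rho_meas n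
  have h1 : ∀ x : E n, ∫⁻ y, H (x, y) ∂(gm n) = ∫⁻ y, ROT_rho n y * H (x, y) := by
    intro x
    have hh : Measurable (fun y : E n => H (x, y)) := hH.comp measurable_prodMk_left
    rw [hg, lintegral_withDensity_eq_lintegral_mul _ hr hh]
    rfl
  have hm : Measurable (fun p : E n × E n => ROT_rho n p.2 * H p) := (hr.comp measurable_snd).mul hH
  have h2 : Measurable (fun x : E n => ∫⁻ y, ROT_rho n y * H (x, y)) := hm.lintegral_prod_right'
  simp_rw [h1]
  rw [hg, lintegral_withDensity_eq_lintegral_mul _ hr h2]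
  have hm2 : Measurable (fun p : E n × E n => ROT_rho n p.1 * ROT_rho n p.2 * H p) :=
    ((hr.comp measurable_fst).mul (hr.comp measurable_snd)).mul hH
  rw [Measure.volume_eq_prod, lintegral_prod _ hm2.aemeasurable]
  refine lintegral_congr ?_
  intro x
  show ROT_rho n x * ∫⁻ y, ROT_rho n y * H (x, y) = ∫⁻ y, ROT_rho n x * ROT_rho n y * H (x, y)
  have hh : Measurable (fun y : E n => ROT_rho n y * H (x, y)) := hr.mul (hH.comp measurable_prodMk_left)
  rw [← lintegral_const_mul _ hh]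
  refine lintegral_congr ?_
  intro y
  rw [mul_assoc]

theorem ROT : ROT_stmt := by
  intro n θ F hF
  have hc : Continuous (ROT_R n θ) := LinearMap.continuous_of_finiteDimensional _
  have h1 : ∫⁻ x, ∫⁻ y, F (Real.cos θ • x + Real.sin θ • y, -Real.sin θ • x + Real.cos θ • y) ∂(gm n) ∂(gm n) =
      ∫⁻ x, ∫⁻ y, (fun p => F (ROT_R n θ p)) (x, y) ∂(gm n) ∂(gm n) := rfl
  rw [h1, ROT_int n (fun p => F (ROT_R n θ p)) (hF.comp hc.measurable), ROT_int n F hF]
  have hm : Measurable (fun p : E n × E n => ROT_rho n p.1 * ROT_rho n p.2 * F p) :=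
    (((ROT_rho_meas n).comp measurable_fst).mul ((ROT_rho_meas n).comp measurable_snd)).mul hF
  rw [← (ROT_mp n θ).lintegral_comp hm]
  refine lintegral_congr ?_
  intro p
  rw [ROT_rho_inv]

end Pool.Agent.CX
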