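import Pool.Agent.helper81.CX.Spec2

/-! Project cx, row VO2: the volume of bodies of constant width. -/

set_option autoImplicit false

open MeasureTheory Set Filter Topology
open scoped ENNReal
open Pool.Agent.helper81.CW

namespace Pool.Agent.CX

theorem VO2_un_smul {n : ℕ} (x : E n) (t : ℝ) (ht : 0 < t) : un (t • x) = un x := by
  unfold un
  rw [norm_smul, Real.norm_eq_abs, abs_of_pos ht, smul_smul, mul_inv, mul_comm t⁻¹, mul_assoc, inv_mul_cancel₀ ht.ne', mul_one]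

theorem VO2_un_neg {n : ℕ} (x : E n) : un (-x) = -un x := by
  unfold un
  rw [norm_neg, smul_neg]

theorem VO2_un_meas {n : ℕ} : Measurable (un : E n → E n) := by
  unfold un
  exact (measurable_norm.inv).smul measurable_id

theorem VO2_smul {n : ℕ} (x : E n) (hx : x ≠ 0) : ‖x‖ • un x = x := by
  unfold un
  rw [smul_smul, mul_inv_cancel₀ (norm_ne_zero_iff.mpr hx), one_smul]

/-- the geometric part -/
theorem VO2_core (hG1 : G1_stmt) (hCVG : CVG_stmt) (hCON : CON_stmt) (n : ℕ) (hn : 0 < n) (C : Set (E n))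
    (hC : IsCompact C) (hconv : Convex ℝ C) (M : E n → E n) (hM : EvenMap M) (a b : ℝ) (ha : 0 < a) (hb : 0 ≤ b) (hab : b ≤ a)
    (w : E n) (hw : w ∈ C)
    (hS : gm n {x : E n | x ≠ 0 ∧ a • un x + (w + b • M x) ∈ C ∧ -(a • un x) + (w + b • M x) ∈ C}ᶜ ≤ ENNReal.ofReal (1 / 2)) :
    ENNReal.ofReal (Real.sqrt (a ^ 2 - b ^ 2 / 4) ^ n) * (ENNReal.ofReal (1 / 2) * volume (Metric.closedBall (0 : E n) 1)) ≤
      volume C := by
  have hprob : IsProbabilityMeasure (gm n) := (hG1 n).1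
  set S : Set (E n) := {x : E n | x ≠ 0 ∧ a • un x + (w + b • M x) ∈ C ∧ -(a • un x) + (w + b • M x) ∈ C} with hSdef
  have hSm : MeasurableSet S := by
    have h1 : Measurable (fun x : E n => a • un x + (w + b • M x)) :=
      (VO2_un_meas.const_smul a).add ((hM.meas.const_smul b).const_add w)
    have h2 : Measurable (fun x : E n => -(a • un x) + (w + b • M x)) :=
      (VO2_un_meas.const_smul a).neg.add ((hM.meas.const_smul b).const_add w)
    have h0 : MeasurableSet {x : E n | x ≠ 0} := (measurableSet_singleton (0 : E n)).compl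
    exact h0.inter ((h1 hC.isClosed.measurableSet).inter (h2 hC.isClosed.measurableSet))
  have hcone : ∀ x ∈ S, ∀ t : ℝ, 0 < t → t • x ∈ S := by
    intro x hx t ht
    obtain ⟨h0, h1, h2⟩ := hx
    refine ⟨smul_ne_zero ht.ne' h0, ?_, ?_⟩
    · show a • un (t • x) + (w + b • M (t • x)) ∈ C
      rw [VO2_un_smul x t ht, hM.hom x t ht]
      exact h1
    · show -(a • un (t • x)) + (w + b • M (t • x)) ∈ C
      rw [VO2_un_smul x t ht, hM.hom x t ht]
      exact h2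
  have hsym : ∀ x ∈ S, -x ∈ S := by
    intro x hx
    obtain ⟨h0, h1, h2⟩ := hx
    refine ⟨neg_ne_zero.mpr h0, ?_, ?_⟩
    · show a • un (-x) + (w + b • M (-x)) ∈ C
      rw [VO2_un_neg, hM.even x, smul_neg]
      exact h2
    · show -(a • un (-x)) + (w + b • M (-x)) ∈ C
      rw [VO2_un_neg, hM.even x, smul_neg, neg_neg]
      exact h1
  have hgm : ENNReal.ofReal (1 / 2) ≤ gm n S := by
    have h1 : gm n S + gm n Sᶜ = 1 := prob_add_prob_compl hSm
    have h2 : (1 : ℝ≥0∞) ≤ gm n S + ENNReal.ofReal (1 / 2) := by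
      rw [← h1]
      gcongr
    have h3 : (1 : ℝ≥0∞) = ENNReal.ofReal (1 / 2) + ENNReal.ofReal (1 / 2) := by
      rw [← ENNReal.ofReal_add (by norm_num) (by norm_num)]
      norm_num
    rw [h3] at h2
    exact (ENNReal.add_le_add_iff_right ENNReal.ofReal_ne_top).mp h2
  set A : Set (E n) := S ∩ Metric.closedBall (0 : E n) 1 with hA
  have hAm : MeasurableSet A := hSm.inter Metric.isClosed_closedBall.measurableSet
  have hAsym : ∀ x ∈ A, -x ∈ A := by
    intro x hx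
    refine ⟨hsym x hx.1, ?_⟩
    have h := hx.2
    rw [mem_closedBall_zero_iff] at h ⊢
    rw [norm_neg]
    exact h
  have hA0 : (0 : E n) ∉ A := fun h => h.1.1 rfl
  have hvA : ENNReal.ofReal (1 / 2) * volume (Metric.closedBall (0 : E n) 1) ≤ volume A := by
    rw [hA, hCON n S hn hSm hcone]
    gcongr
  have hcv := hCVG n a b ha hb hab M hM A hAm hAsym hA0
  have hsub : (fun y : E n => w + y) '' (Pg a b M '' A) ⊆ C := by
    rintro _ ⟨_, ⟨x, hx, rfl⟩, rfl⟩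
    have hx0 : x ≠ 0 := hx.1.1
    have hx1 : ‖x‖ ≤ 1 := mem_closedBall_zero_iff.mp hx.2
    have h1 : a • un x + (w + b • M x) ∈ C := hx.1.2.1
    have h2 := hconv hw h1 (by linarith : (0 : ℝ) ≤ 1 - ‖x‖) (norm_nonneg x) (by ring)
    have e : w + Pg a b M x = (1 - ‖x‖) • w + ‖x‖ • (a • un x + (w + b • M x)) := by
      have e1 : a • x = ‖x‖ • (a • un x) := by
        conv_lhs => rw [← VO2_smul x hx0]
        rw [smul_comm]
      have e2 : (b * ‖x‖) • M x = ‖x‖ • (b • M x) := by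
        rw [smul_smul, mul_comm]
      unfold Pg
      rw [e1, e2, sub_smul, one_smul, smul_add, smul_add]
      abel
    show w + Pg a b M x ∈ C
    rw [e]
    exact h2
  have htr : volume ((fun y : E n => w + y) '' (Pg a b M '' A)) = volume (Pg a b M '' A) := by
    rw [image_add_left, measure_preimage_add]
  calc ENNReal.ofReal (Real.sqrt (a ^ 2 - b ^ 2 / 4) ^ n) * (ENNReal.ofReal (1 / 2) * volume (Metric.closedBall (0 : E n) 1))
      ≤ ENNReal.ofReal (Real.sqrt (a ^ 2 - b ^ 2 / 4) ^ n) * volume A := by gcongr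
    _ ≤ volume (Pg a b M '' A) := hcv
    _ = volume ((fun y : E n => w + y) '' (Pg a b M '' A)) := htr.symm
    _ ≤ volume C := measure_mono hsub

theorem VO2_num : ∀ᶠ n : ℕ in atTop,
    (0.8189 : ℝ) ^ n * (1 / 2) ^ n ≤ Real.sqrt ((0.42456 : ℝ) ^ 2 - (0.2243 : ℝ) ^ 2 / 4) ^ n * (1 / 2) := by
  have h1 : Tendsto (fun n : ℕ => ((0.8189 : ℝ) / 0.81895) ^ n) atTop (𝓝 0) :=
    tendsto_pow_atTop_nhds_zero_of_lt_one (by norm_num) (by norm_num)
  filter_upwards [h1.eventually_le_const (show (0 : ℝ) < 1 / 2 by norm_num)] with n hn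
  have h2 : (0.81895 / 2 : ℝ) ≤ Real.sqrt ((0.42456 : ℝ) ^ 2 - (0.2243 : ℝ) ^ 2 / 4) := by
    refine Real.le_sqrt_of_sq_le ?_
    norm_num
  have h3 : (0.81895 / 2 : ℝ) ^ n ≤ Real.sqrt ((0.42456 : ℝ) ^ 2 - (0.2243 : ℝ) ^ 2 / 4) ^ n :=
    pow_le_pow_left₀ (by norm_num) h2 n
  have h4 : (0.8189 : ℝ) ^ n ≤ (0.81895 : ℝ) ^ n * (1 / 2) := by
    rw [div_pow, div_le_iff₀ (by positivity)] at hn
    linarith
  calc (0.8189 : ℝ) ^ n * (1 / 2) ^ n ≤ ((0.81895 : ℝ) ^ n * (1 / 2)) * (1 / 2) ^ n := by gcongr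
    _ = (0.81895 / 2 : ℝ) ^ n * (1 / 2) := by
        rw [div_eq_mul_one_div (0.81895 : ℝ) 2, mul_pow]
        ring
    _ ≤ _ := by gcongr

theorem VO2 (hG1 : G1_stmt) (hJ1 : J1_stmt) (hJ2 : J2_stmt) (hJ3 : J3_stmt) (hMPS : MPS_stmt) (hCVG : CVG_stmt)
    (hCON : CON_stmt) (hCEN : CEN_stmt) (hSTB : STB_stmt) : VO2_stmt := by
  have hst := hSTB 0.42456 0.2243 0.7412 0.1759 0.3605 0.861 (by norm_num) (by norm_num) (by norm_num) (by norm_num)
    (by norm_num) (by norm_num) (by norm_num) (by norm_num) (by norm_num) (by norm_num) (by norm_num) (by norm_num)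
    (by unfold R0; norm_num) (1 / 2) (by norm_num)
  filter_upwards [hst, VO2_num, eventually_ge_atTop 1] with n hn hnum hn1 C hC
  have hn0 : 0 < n := hn1
  obtain ⟨z, R, hR0, hR2, hzR⟩ := hJ1 n C hC.2.1 hC.1 (hJ2 n C 1 hC).1
  obtain ⟨hC', hvol⟩ := hJ3 n C 1 1 z hC one_pos
  rw [mul_one] at hC'
  rw [one_pow, ENNReal.ofReal_one, one_mul] at hvol
  rw [← hvol]
  set C' : Set (E n) := (fun x => (1 : ℝ) • (x - z)) '' C with hC'def
  have hball : ∀ v ∈ C', ‖v‖ ^ 2 ≤ 1 / 2 := by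
    rintro _ ⟨x, hx, rfl⟩
    show ‖(1 : ℝ) • (x - z)‖ ^ 2 ≤ 1 / 2
    rw [one_smul]
    exact (pow_le_pow_left₀ (norm_nonneg _) (hzR x hx) 2).trans hR2
  obtain ⟨M, hM, hMx⟩ := hMPS n C' hC' hball
  have hfar : ∀ x : E n, x ≠ 0 → ∀ v ∈ C', ‖v - (M x + (1 / 2 : ℝ) • un x)‖ ≤ 1 := fun x hx => (hMx x hx).2.2
  have hin : ∀ x : E n, x ≠ 0 → M x + (1 / 2 : ℝ) • un x ∈ C' := fun x hx => (hMx x hx).1
  have hS := hn C' M hC' hball hM hfar
  have hw : ((0.7412 : ℝ) - 0.2243) • (∫ z, M z ∂(gm n)) ∈ C' :=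
    hCEN n C' M hn1 hC' hball hM hin _ (by norm_num) (by norm_num)
  have hcore := VO2_core hG1 hCVG hCON n hn0 C' hC'.2.1 hC'.2.2.1 M hM 0.42456 0.2243 (by norm_num) (by norm_num)
    (by norm_num) _ hw hS
  refine le_trans ?_ hcore
  rw [Measure.addHaar_closedBall' volume (0 : E n) (by norm_num : (0 : ℝ) ≤ 1 / 2), finrank_euclideanSpace_fin,
    ← mul_assoc, ← mul_assoc, ← ENNReal.ofReal_mul (by positivity), ← ENNReal.ofReal_mul (by positivity)]
  gcongr

end Pool.Agent.CX
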