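import Pool.Agent.helper25.CX.Spec

set_option autoImplicit false

open MeasureTheory Set Filter Topology
open scoped ENNReal
open Pool.Agent.helper81.CW

namespace Pool.Agent.CX

/-- the scalar inequality -/
theorem CE1_real (t q a b Y : ℝ) (hq : 0 ≤ q) (ht1 : -(1 / 20000) ≤ t) (ht2 : t ≤ 1 / 20000)
    (hY : Y ≤ 1 / 2)
    (hD : Y + (q + t + 1 / 4) - 2 * (b + a / 2) ≤ 1)
    (hsq : 0 ≤ (0.2218 : ℝ) ^ 2 * Y + 2 * 0.2218 * ((1.1287 * (3 / 8) - 0.6321 / 2) * a + (1.1287 / 4 - 0.6321) * b) +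
      ((1.1287 * (3 / 8) - 0.6321 / 2) ^ 2 + 2 * (1.1287 * (3 / 8) - 0.6321 / 2) * (1.1287 / 4 - 0.6321) * t +
        (1.1287 / 4 - 0.6321) ^ 2 * q)) :
    Y + (1.1287 : ℝ) ^ 2 * (9 / 64 + 3 * t / 16 + q / 16) - 2 * 1.1287 * (3 / 8 * a + b / 4) ≤ 1 := by
  nlinarith [hsq, hD, hY, hq, ht1, ht2]

theorem CE1 : CE1_stmt := by
  intro n u M y hu hy hD ht
  obtain ⟨t, htd⟩ : ∃ t : ℝ, t = inner ℝ u M := ⟨_, rfl⟩
  obtain ⟨q, hqd⟩ : ∃ q : ℝ, q = ‖M‖ ^ 2 := ⟨_, rfl⟩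
  obtain ⟨a, had⟩ : ∃ a : ℝ, a = inner ℝ u y := ⟨_, rfl⟩
  obtain ⟨b, hbd⟩ : ∃ b : ℝ, b = inner ℝ M y := ⟨_, rfl⟩
  obtain ⟨Y, hYd⟩ : ∃ Y : ℝ, Y = ‖y‖ ^ 2 := ⟨_, rfl⟩
  have hu2 : inner ℝ u u = (1 : ℝ) := by rw [real_inner_self_eq_norm_sq, hu]; norm_num
  have hM2 : inner ℝ M M = q := by rw [real_inner_self_eq_norm_sq, hqd]
  have hy2 : inner ℝ y y = Y := by rw [real_inner_self_eq_norm_sq, hYd]
  have hMu : inner ℝ M u = t := by rw [htd, real_inner_comm]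
  have hyu : inner ℝ y u = a := by rw [had, real_inner_comm]
  have hyM : inner ℝ y M = b := by rw [hbd, real_inner_comm]
  rw [← htd] at ht
  obtain ⟨ht1, ht2⟩ := abs_le.mp ht
  have hq : 0 ≤ q := by rw [hqd]; positivity
  rw [← hYd] at hy
  -- the distance condition
  have h1 : ‖y - (M + (1 / 2 : ℝ) • u)‖ ^ 2 = Y + (q + t + 1 / 4) - 2 * (b + a / 2) := by
    rw [← real_inner_self_eq_norm_sq]
    simp only [inner_sub_left, inner_sub_right, inner_add_left, inner_add_right, real_inner_smul_left,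
      real_inner_smul_right, hu2, hM2, hy2, hMu, hyu, hyM, ← htd, ← had, ← hbd]
    ring
  have h2 : Y + (q + t + 1 / 4) - 2 * (b + a / 2) ≤ 1 := by
    rw [← h1]
    exact pow_le_one₀ (norm_nonneg _) hD
  have h3 : ‖(0.2218 : ℝ) • y + ((1.1287 * (3 / 8) - 0.6321 / 2 : ℝ) • u + (1.1287 / 4 - 0.6321 : ℝ) • M)‖ ^ 2 =
      (0.2218 : ℝ) ^ 2 * Y + 2 * 0.2218 * ((1.1287 * (3 / 8) - 0.6321 / 2) * a + (1.1287 / 4 - 0.6321) * b) +
      ((1.1287 * (3 / 8) - 0.6321 / 2) ^ 2 + 2 * (1.1287 * (3 / 8) - 0.6321 / 2) * (1.1287 / 4 - 0.6321) * t +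
        (1.1287 / 4 - 0.6321) ^ 2 * q) := by
    rw [← real_inner_self_eq_norm_sq]
    simp only [inner_sub_left, inner_sub_right, inner_add_left, inner_add_right, real_inner_smul_left,
      real_inner_smul_right, hu2, hM2, hy2, hMu, hyu, hyM, ← htd, ← had, ← hbd]
    ring
  have h4 : ‖(1.1287 : ℝ) • ((3 / 8 : ℝ) • u + (1 / 4 : ℝ) • M) - y‖ ^ 2 =
      Y + (1.1287 : ℝ) ^ 2 * (9 / 64 + 3 * t / 16 + q / 16) - 2 * 1.1287 * (3 / 8 * a + b / 4) := by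
    rw [← real_inner_self_eq_norm_sq]
    simp only [inner_sub_left, inner_sub_right, inner_add_left, inner_add_right, real_inner_smul_left,
      real_inner_smul_right, hu2, hM2, hy2, hMu, hyu, hyM, ← htd, ← had, ← hbd]
    ring
  have h5 := CE1_real t q a b Y hq (by linarith) ht2 hy h2 (by rw [← h3]; positivity)
  rw [← h4] at h5
  exact (sq_le_one_iff₀ (norm_nonneg _)).mp h5

end Pool.Agent.CX
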