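import Pool.Agent.helper25.CX.Spec

set_option autoImplicit false

open MeasureTheory Set Filter Topology
open scoped ENNReal
open Pool.Agent.helper81.CW

namespace Pool.Agent.CX

/-- the scalar inequality; `t1 = ⟪u,M⟫`, `t2 = ⟪u,s⟫`, `p = ⟪M,s⟫`, `Q = ‖M‖²`, `S = ‖s‖²`, `a = ⟪u,y⟫`, `b = ⟪M,y⟫`, `d = ⟪s,y⟫` -/
theorem CE2_real (t1 t2 p Q S a b d Y : ℝ) (hS : 0 ≤ S) (h1 : -(1 / 20000) ≤ t1) (h1' : t1 ≤ 1 / 20000)
    (h2 : -(1 / 20000) ≤ t2) (h2' : t2 ≤ 1 / 20000) (h3 : -(1 / 20000) ≤ p - S) (h3' : p - S ≤ 1 / 20000)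
    (hq : Q - 2 * p + S ≤ 0.1265)
    (hY : Y ≤ 1 / 2)
    (hD : Y + (Q + t1 + 1 / 4) - 2 * (b + a / 2) ≤ 1)
    (hsq : 0 ≤ (0.3076 : ℝ) ^ 2 * Y + 2 * 0.3076 * (0.3383 * d + (0.3711 - 0.4424 / 2) * a - 0.4424 * b) +
      (0.3383 ^ 2 * S + (0.3711 - 0.4424 / 2) ^ 2 + 0.4424 ^ 2 * Q + 2 * 0.3383 * (0.3711 - 0.4424 / 2) * t2 -
        2 * 0.3383 * 0.4424 * p - 2 * (0.3711 - 0.4424 / 2) * 0.4424 * t1)) :
    Y + (0.3383 ^ 2 * S + 0.3711 ^ 2 + 2 * 0.3383 * 0.3711 * t2) - 2 * (0.3383 * d + 0.3711 * a) ≤ (1 : ℝ) := by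
  linarith [hsq, hD, hY, hS, h1, h1', h2, h2', h3, h3', hq]

theorem CE2 : CE2_stmt := by
  intro n u M y s hu hy hD ht1 ht2 ht3 hq
  obtain ⟨t1, ht1d⟩ : ∃ t : ℝ, t = inner ℝ u M := ⟨_, rfl⟩
  obtain ⟨t2, ht2d⟩ : ∃ t : ℝ, t = inner ℝ u s := ⟨_, rfl⟩
  obtain ⟨p, hpd⟩ : ∃ t : ℝ, t = inner ℝ M s := ⟨_, rfl⟩
  obtain ⟨Q, hQd⟩ : ∃ q : ℝ, q = ‖M‖ ^ 2 := ⟨_, rfl⟩
  obtain ⟨S, hSd⟩ : ∃ q : ℝ, q = ‖s‖ ^ 2 := ⟨_, rfl⟩
  obtain ⟨a, had⟩ : ∃ a : ℝ, a = inner ℝ u y := ⟨_, rfl⟩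
  obtain ⟨b, hbd⟩ : ∃ b : ℝ, b = inner ℝ M y := ⟨_, rfl⟩
  obtain ⟨d, hdd⟩ : ∃ b : ℝ, b = inner ℝ s y := ⟨_, rfl⟩
  obtain ⟨Y, hYd⟩ : ∃ Y : ℝ, Y = ‖y‖ ^ 2 := ⟨_, rfl⟩
  have hu2 : inner ℝ u u = (1 : ℝ) := by rw [real_inner_self_eq_norm_sq, hu]; norm_num
  have hM2 : inner ℝ M M = Q := by rw [real_inner_self_eq_norm_sq, hQd]
  have hs2 : inner ℝ s s = S := by rw [real_inner_self_eq_norm_sq, hSd]
  have hy2 : inner ℝ y y = Y := by rw [real_inner_self_eq_norm_sq, hYd]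
  have hMu : inner ℝ M u = t1 := by rw [ht1d, real_inner_comm]
  have hsu : inner ℝ s u = t2 := by rw [ht2d, real_inner_comm]
  have hsM : inner ℝ s M = p := by rw [hpd, real_inner_comm]
  have hyu : inner ℝ y u = a := by rw [had, real_inner_comm]
  have hyM : inner ℝ y M = b := by rw [hbd, real_inner_comm]
  have hys : inner ℝ y s = d := by rw [hdd, real_inner_comm]
  rw [← ht1d] at ht1
  rw [← ht2d] at ht2
  rw [inner_sub_left, ← hpd, hs2] at ht3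
  obtain ⟨h1, h1'⟩ := abs_le.mp ht1
  obtain ⟨h2, h2'⟩ := abs_le.mp ht2
  obtain ⟨h3, h3'⟩ := abs_le.mp ht3
  have hS : 0 ≤ S := by rw [hSd]; positivity
  rw [← hYd] at hy
  have hqq : Q - 2 * p + S ≤ 0.1265 := by
    rw [norm_sub_sq_real, ← hQd, ← hSd, ← hpd] at hq
    exact hq
  -- the distance condition
  have e1 : ‖y - (M + (1 / 2 : ℝ) • u)‖ ^ 2 = Y + (Q + t1 + 1 / 4) - 2 * (b + a / 2) := by
    rw [← real_inner_self_eq_norm_sq]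
    simp only [inner_sub_left, inner_sub_right, inner_add_left, inner_add_right, real_inner_smul_left,
      real_inner_smul_right, hu2, hM2, hy2, hMu, hyu, hyM, ← ht1d, ← had, ← hbd]
    ring
  have e2 : Y + (Q + t1 + 1 / 4) - 2 * (b + a / 2) ≤ 1 := by
    rw [← e1]
    exact pow_le_one₀ (norm_nonneg _) hD
  have e3 : ‖(0.3076 : ℝ) • y + ((0.3383 : ℝ) • s + (0.3711 - 0.4424 / 2 : ℝ) • u - (0.4424 : ℝ) • M)‖ ^ 2 =
      (0.3076 : ℝ) ^ 2 * Y + 2 * 0.3076 * (0.3383 * d + (0.3711 - 0.4424 / 2) * a - 0.4424 * b) +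
      (0.3383 ^ 2 * S + (0.3711 - 0.4424 / 2) ^ 2 + 0.4424 ^ 2 * Q + 2 * 0.3383 * (0.3711 - 0.4424 / 2) * t2 -
        2 * 0.3383 * 0.4424 * p - 2 * (0.3711 - 0.4424 / 2) * 0.4424 * t1) := by
    rw [← real_inner_self_eq_norm_sq]
    simp only [inner_sub_left, inner_sub_right, inner_add_left, inner_add_right, real_inner_smul_left,
      real_inner_smul_right, hu2, hM2, hs2, hy2, hMu, hsu, hsM, hyu, hyM, hys, ← ht1d, ← ht2d, ← hpd, ← had, ← hbd, ← hdd]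
    ring
  have e4 : ‖(0.3383 : ℝ) • s + (0.3711 : ℝ) • u - y‖ ^ 2 =
      Y + (0.3383 ^ 2 * S + 0.3711 ^ 2 + 2 * 0.3383 * 0.3711 * t2) - 2 * (0.3383 * d + 0.3711 * a) := by
    rw [← real_inner_self_eq_norm_sq]
    simp only [inner_sub_left, inner_sub_right, inner_add_left, inner_add_right, real_inner_smul_left,
      real_inner_smul_right, hu2, hs2, hy2, hsu, hyu, hys, ← ht2d, ← had, ← hdd]
    ring
  have e5 := CE2_real t1 t2 p Q S a b d Y hS (by linarith) h1' (by linarith) h2' (by linarith) h3' hqq hy e2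
    (by rw [← e3]; positivity)
  rw [← e4] at e5
  exact (sq_le_one_iff₀ (norm_nonneg _)).mp e5

end Pool.Agent.CX
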