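import Pool.Agent.helper25.CX.Spec

set_option autoImplicit false

open MeasureTheory Set Filter Topology
open scoped ENNReal
open Pool.Agent.helper81.CW

namespace Pool.Agent.CX

theorem INJ_un {n : ℕ} (x : E n) (hx : x ≠ 0) : ‖un x‖ = 1 := by
  unfold un
  rw [norm_smul, norm_inv, norm_norm, inv_mul_cancel₀ (norm_ne_zero_iff.mpr hx)]

theorem INJ_smul {n : ℕ} (x : E n) (hx : x ≠ 0) : ‖x‖ • un x = x := by
  unfold un
  rw [smul_smul, mul_inv_cancel₀ (norm_ne_zero_iff.mpr hx), one_smul]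

/-- `Ph M x = (‖x‖/4) q x` -/
theorem INJ_q {n : ℕ} (M : E n → E n) (x : E n) (hx : x ≠ 0) :
    Ph M x = (‖x‖ / 4) • (un x + (M x + (1 / 2 : ℝ) • un x)) := by
  have h1 : un x + (M x + (1 / 2 : ℝ) • un x) = (3 / 2 : ℝ) • un x + M x := by
    have : (3 / 2 : ℝ) • un x = un x + (1 / 2 : ℝ) • un x := by
      rw [show (3 / 2 : ℝ) = 1 + 1 / 2 by norm_num, add_smul, one_smul]
    rw [this]
    abel
  rw [h1, smul_add, smul_smul]
  have h2 : (‖x‖ / 4 * (3 / 2)) • un x = (3 / 8 : ℝ) • x := by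
    calc (‖x‖ / 4 * (3 / 2)) • un x = (3 / 8 : ℝ) • (‖x‖ • un x) := by
          rw [smul_smul]; congr 1; ring
      _ = (3 / 8 : ℝ) • x := by rw [INJ_smul x hx]
  rw [h2]
  unfold Ph
  congr 2
  ring

theorem INJ_key {n : ℕ} {M : E n → E n} (hM : EvenMap M) (x y : E n) (hx : x ≠ 0) (hy : y ≠ 0) :
    inner ℝ (un y) (un x + (M x + (1 / 2 : ℝ) • un x)) ≤
      inner ℝ (un y) (un x) + inner ℝ (un y) (M y + (1 / 2 : ℝ) • un y) := by
  rw [inner_add_right]
  have := hM.sup y x hy hx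
  linarith

theorem INJ_pos {n : ℕ} {M : E n → E n} (hM : EvenMap M) (y : E n) (hy : y ≠ 0) :
    0 < inner ℝ (un y) (un y + (M y + (1 / 2 : ℝ) • un y)) := by
  have h1 : |inner ℝ (un y) (M y)| ≤ (1 / 2 : ℝ) := by
    refine (abs_real_inner_le_norm _ _).trans ?_
    rw [INJ_un y hy, one_mul]
    exact hM.bdd y
  have h2 := (abs_le.mp h1).1
  rw [inner_add_right, inner_add_right, real_inner_smul_right, real_inner_self_eq_norm_sq, INJ_un y hy]
  linarith

theorem INJ_le {n : ℕ} {M : E n → E n} (hM : EvenMap M) (x y : E n) (hx : x ≠ 0) (hy : y ≠ 0)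
    (h : ‖x‖ • (un x + (M x + (1 / 2 : ℝ) • un x)) = ‖y‖ • (un y + (M y + (1 / 2 : ℝ) • un y))) :
    ‖y‖ ≤ ‖x‖ := by
  by_contra hlt
  rw [not_le] at hlt
  have hx0 : 0 < ‖x‖ := norm_pos_iff.mpr hx
  have h1 := congrArg (fun z => inner ℝ (un y) z) h
  simp only [real_inner_smul_right] at h1
  have h2 := INJ_key hM x y hx hy
  have h3 : inner ℝ (un y) (un x) ≤ (1 : ℝ) := by
    refine (real_inner_le_norm _ _).trans ?_
    rw [INJ_un y hy, INJ_un x hx, one_mul]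
  have h4 := INJ_pos hM y hy
  have h5 : inner ℝ (un y) (un y + (M y + (1 / 2 : ℝ) • un y)) =
      1 + inner ℝ (un y) (M y + (1 / 2 : ℝ) • un y) := by
    rw [inner_add_right, real_inner_self_eq_norm_sq, INJ_un y hy]
    norm_num
  have h6 : inner ℝ (un y) (un x + (M x + (1 / 2 : ℝ) • un x)) ≤
      inner ℝ (un y) (un y + (M y + (1 / 2 : ℝ) • un y)) := by
    rw [h5]
    linarith
  have h7 : ‖x‖ * inner ℝ (un y) (un x + (M x + (1 / 2 : ℝ) • un x)) ≤
      ‖x‖ * inner ℝ (un y) (un y + (M y + (1 / 2 : ℝ) • un y)) :=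
    mul_le_mul_of_nonneg_left h6 hx0.le
  have h8 : ‖x‖ * inner ℝ (un y) (un y + (M y + (1 / 2 : ℝ) • un y)) <
      ‖y‖ * inner ℝ (un y) (un y + (M y + (1 / 2 : ℝ) • un y)) :=
    mul_lt_mul_of_pos_right hlt h4
  linarith

theorem INJ : INJ_stmt := by
  intro n M hM x hx y hy hxy
  have hx' : x ≠ 0 := hx
  have hy' : y ≠ 0 := hy
  rw [INJ_q M x hx', INJ_q M y hy'] at hxy
  have h : ‖x‖ • (un x + (M x + (1 / 2 : ℝ) • un x)) = ‖y‖ • (un y + (M y + (1 / 2 : ℝ) • un y)) := by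
    have h1 := congrArg (fun z => (4 : ℝ) • z) hxy
    simp only [smul_smul] at h1
    have e1 : (4 : ℝ) * (‖x‖ / 4) = ‖x‖ := by ring
    have e2 : (4 : ℝ) * (‖y‖ / 4) = ‖y‖ := by ring
    rw [e1, e2] at h1
    exact h1
  have hn : ‖x‖ = ‖y‖ := le_antisymm (INJ_le hM y x hy' hx' h.symm) (INJ_le hM x y hx' hy' h)
  have hy0 : 0 < ‖y‖ := norm_pos_iff.mpr hy'
  rw [hn] at h
  have hq := smul_right_injective (E n) hy0.ne' h
  have hq' : un x + (M x + (1 / 2 : ℝ) • un x) = un y + (M y + (1 / 2 : ℝ) • un y) := hq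
  have h2 := INJ_key hM x y hx' hy'
  rw [hq', inner_add_right, real_inner_self_eq_norm_sq, INJ_un y hy'] at h2
  have h3 : (1 : ℝ) ≤ inner ℝ (un y) (un x) := by linarith
  have h4 : ‖un y - un x‖ ^ 2 ≤ 0 := by
    rw [norm_sub_sq_real, INJ_un y hy', INJ_un x hx']
    linarith
  have h5 : un y - un x = 0 := by
    have : ‖un y - un x‖ = 0 := by
      have := sq_nonneg ‖un y - un x‖
      exact pow_eq_zero_iff (two_ne_zero) |>.mp (le_antisymm h4 this)
    exact norm_eq_zero.mp this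
  have h6 : un y = un x := sub_eq_zero.mp h5
  rw [← INJ_smul x hx', ← INJ_smul y hy', ← h6, hn]

end Pool.Agent.CX
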