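import Pool.Agent.helper81.CW.Spec2
import Pool.Agent.helper81.CI.Spec

/-!
# Project cx (MP_447e26_gt): an exponential improvement of Schramm's lower bound for bodies of constant width

**Theorem.** For all large `n` every body `C ⊆ ℝ^n` of constant width has volume at least `0.798^n` times the volume of the ball
of the same width (Schramm 1988: `(√3 - 1 + o(1))^n`, `√3 - 1 = 0.7320...`), so `β ≥ 0.798` and `τ_n ≥ 0.798^n`; and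
`σ_n ≥ 0.742^n`, `α ≥ 0.742`.

Notation. Width `1`. `C ⊆ {‖y‖² ≤ 1/2}` (circumcentre `0`). `un x = x/‖x‖`. `X x` = support point of `C` in the direction `x`,
`X (-x) = X x - un x`, so `M x = X x - un x/2` is EVEN, and `M` is `1/2`-Lipschitz on the unit sphere. `gm n` = standard Gaussian measure.

*Volume*. `Ph M x = (3/8) x + (1/4) ‖x‖ M x` is injective, `1.1287 Ph M x ∈ C` for `‖x‖ ≤ 1`, `|⟪un x, M x⟫| ≤ 1/20000` (CE1: all `y ∈ C` have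
`‖y‖² ≤ 1/2` and `‖y - X x‖ ≤ 1`), and the product of the Jacobians at `x` and at `-x` is at least `(1/8)^n`, because `M` is even and `1/2`-Lipschitz:
`det(3/8 + L/4) det(3/8 - L/4) = det(9/64 - L²/16)`. So `vol C ≥ (1.1287/√8)^n` times about the volume of the unit ball, `1.1287/√8 = 0.79811/2`.

*Symmetric part*. `s` = Gaussian mean of `M`. As `M` is even, going from `x` to `-x` along a great circle through an independent `y` gives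
`E‖M - s‖² ≤ 1/8 + small` (a Wirtinger inequality; the trivial bound is `1/4`). For `z = 0.3383 s` and typical unit `u` all
`y ∈ C` satisfy `‖z ± 0.3711 u - y‖ ≤ 1` (CE2).

RULES. Row `cx:XX`: file `Pool/Agent/<seat>/CX/XX.lean`, `import Pool.Agent.helper25.CX.Spec`, `set_option autoImplicit false`, namespace `Pool.Agent.CX`,
`open MeasureTheory Set Filter Topology`, `open scoped ENNReal`, `open Pool.Agent.helper81.CW`, theorem line in the lock note, other rows only as hypotheses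
(also `G1_stmt` ... `J6_stmt` of `Pool/Agent/helper81/CW/Spec2.lean`; they are proved, see `Pool/Agent/helper81/CW/Lower.lean`), auxiliary lemmas prefixed
`XX_`. No double quotes, no `convert`, no `congr!`.
-/

set_option autoImplicit false

open MeasureTheory Set Filter Topology
open scoped ENNReal
open Pool.Agent.helper81.CW

noncomputable section

namespace Pool.Agent.CX

/-! ### Definitions -/

/-- `x/‖x‖` -/
def un {n : ℕ} (x : E n) : E n := ‖x‖⁻¹ • x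

/-- The even part of the support map of a body of width `1` with circumradius at most `√(1/2)`. -/
structure EvenMap {n : ℕ} (M : E n → E n) : Prop where
  meas : Measurable M
  hom : ∀ (x : E n) (t : ℝ), 0 < t → M (t • x) = M x
  even : ∀ x : E n, M (-x) = M x
  bdd : ∀ x : E n, ‖M x‖ ≤ 1 / 2
  lip : ∀ x y : E n, x ≠ 0 → y ≠ 0 → ‖M x - M y‖ ≤ (1 / 2) * ‖un x - un y‖
  sup : ∀ x y : E n, x ≠ 0 → y ≠ 0 →
    inner ℝ (un x) (M y + (1 / 2 : ℝ) • un y) ≤ inner ℝ (un x) (M x + (1 / 2 : ℝ) • un x)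

/-- `(3/8) x + (1/4) ‖x‖ M x` -/
def Ph {n : ℕ} (M : E n → E n) (x : E n) : E n := (3 / 8 : ℝ) • x + ((1 / 4 : ℝ) * ‖x‖) • M x

/-- `E ‖M(x) - M(cos θ x + sin θ y)‖²` -/
def AA {n : ℕ} (M : E n → E n) (θ : ℝ) : ℝ :=
  ∫ x, ∫ y, ‖M x - M (Real.cos θ • x + Real.sin θ • y)‖ ^ 2 ∂(gm n) ∂(gm n)

/-! ### The support map -/

/-- **MPS** (medium, 120 lines; J2, J4). The support map. Proof. For a unit vector `u` let `X u ∈ C` maximise `⟪u, ·⟫` (compactness), `y' ∈ C` maximise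
`⟪-u, ·⟫`. `⟪u, X u - y'⟫ = supp C u + supp C (-u) = 1` and `‖X u - y'‖ ≤ 1` (J2), so `X u - y' = u` (`‖X u - y' - u‖² ≤ 1 - 2 + 1`). So the maximiser for `-u` is
`X u - u`, unique. `M x = X (un x) - un x/2` for `x ≠ 0`, `M 0 = 0`. Even, 0-homogeneous. For `y ∈ C`: `‖y - (X u - u)‖ ≤ 1` gives `‖y - X u‖² ≤ 2 ⟪X u - y, u⟫`; with
`y = X v` and with `u`, `v` exchanged, added: `‖X u - X v‖² ≤ ⟪X u - X v, u - v⟫`, hence `‖M u - M v‖² = ‖X u - X v‖² - ⟪X u - X v, u - v⟫ + ‖u - v‖²/4 ≤ ‖u - v‖²/4`.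
Bound: `M + u/2, M - u/2 ∈ C`, so `2‖M‖² + 1/2 ≤ 1/2 + 1/2`. Measurable: continuous on `{0}ᶜ` (`measurable_of_continuousOn_compl_singleton`). `supp C (un x) = supp C x/‖x‖`: J4 with
`R = √(1/2)`. -/
def MPS_stmt : Prop := ∀ (n : ℕ) (C : Set (E n)), ConstWidth C 1 → (∀ y ∈ C, ‖y‖ ^ 2 ≤ 1 / 2) →
  ∃ M : E n → E n, EvenMap M ∧ ∀ x : E n, x ≠ 0 → M x + (1 / 2 : ℝ) • un x ∈ C ∧
    inner ℝ (un x) (M x) = supp C x / ‖x‖ - 1 / 2 ∧ ∀ y ∈ C, ‖y - (M x + (1 / 2 : ℝ) • un x)‖ ≤ 1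

/-! ### Volume -/

/-- **GLP** (short-medium, 60 lines). Proof. `x, y ≠ 0`: `‖x‖ M x - ‖y‖ M y = (‖x‖ - ‖y‖) M x + ‖y‖ (M x - M y)`, `‖y‖ ‖un x - un y‖ = ‖(‖y‖/‖x‖) x - y‖ ≤
‖x - y‖ + |‖y‖/‖x‖ - 1| ‖x‖ ≤ 2 ‖x - y‖`. So at most `(1/2 + 1) ‖x - y‖`. `x = 0` or `y = 0`: `‖y‖/2`. -/
def GLP_stmt : Prop := ∀ (n : ℕ) (M : E n → E n), EvenMap M → ∀ x y : E n,
  ‖‖x‖ • M x - ‖y‖ • M y‖ ≤ 3 / 2 * ‖x - y‖

/-- **DER** (medium, 100 lines). The derivative `L` of `G z = ‖z‖ M z` at `x ≠ 0`. Proof. `G (t x) = t G x` (`t > 0`): differentiate at `t = 1`: `L x = G x`. Let `⟪x, v⟫ = 0`, `x_t = x + t v`.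
`‖x_t‖² = ‖x‖² + t²‖v‖²`, so the derivative of `‖x_t‖` at `0` is `0` and that of `‖x_t‖ (un x_t - un x) = x_t - (‖x_t‖/‖x‖) x` is `v`. `G x_t - G x = (‖x_t‖ - ‖x‖) M x + ‖x_t‖ (M x_t - M x)`, and
`‖‖x_t‖ (M x_t - M x)‖ ≤ (1/2) ‖‖x_t‖ (un x_t - un x)‖`; divide by `t` and let `t → 0`: `‖L v‖ ≤ ‖v‖/2`. Last claim: `φ t = ⟪un x, G x_t + (1/2) x_t⟫ = ‖x_t‖ ⟪un x, M x_t + (1/2) un x_t⟫ ≤
‖x_t‖ ⟪un x, M x + (1/2) un x⟫` (`EvenMap.sup`) with equality at `t = 0`; so the derivatives at `0` agree: `⟪un x, L v⟫ + (1/2)⟪un x, v⟫ = 0`. -/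
def DER_stmt : Prop := ∀ (n : ℕ) (M : E n → E n), EvenMap M → ∀ x : E n, x ≠ 0 → ∀ L : E n →L[ℝ] E n,
  HasFDerivAt (fun z : E n => ‖z‖ • M z) L x →
    L (un x) = M x ∧ ∀ v : E n, inner ℝ (un x) v = (0 : ℝ) → ‖L v‖ ≤ (1 / 2) * ‖v‖ ∧ inner ℝ (un x) (L v) = (0 : ℝ)

/-- **DET** (medium, 100 lines, linear algebra). Proof. The product is `|det T|`, `T = 9/64 - L²/16` (the two operators commute). `e^⊥` is mapped into itself by `L`, and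
`‖L² v‖ ≤ ‖v‖/4` there, so `‖T v‖ ≥ ‖v‖/8` for `v ⊥ e`. `T e = b e + p`, `p ⊥ e`, `b = 9/64 - t²/16 ≥ 1/8`, `t = ⟪e, L e⟫`, `|t| ≤ 1/2`. Let `S v = T v` for `v ⊥ e`, `S e = b e`, i.e.
`S w = T w - ⟪e, w⟫ p`. `‖S w‖ ≥ ‖w‖/8` for all `w` (Pythagoras), so `S` is invertible and `|det S| ≥ (1/8)^n`: `S (closedBall 0 1) ⊇ closedBall 0 (1/8)`, compare volumes
(`MeasureTheory.Measure.addHaar_image_continuousLinearMap`). `T = S ∘ (1 + ⟪e, ·⟫ q)`, `q = S⁻¹ p ⊥ e`, and `det (1 + ⟪e, ·⟫ q) = 1 + ⟪e, q⟫ = 1` (matrices: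
`Matrix.det_one_add_replicateCol_mul_replicateRow`; or: for `a > 0` let `D` multiply `e` by `a` and be the identity on `e^⊥`; `det (D⁻¹ T D) = det T`, and
`D⁻¹ T D → S` for `a → 0`). -/
def DET_stmt : Prop := ∀ (n : ℕ) (L : E n →L[ℝ] E n) (e : E n), ‖e‖ = 1 → ‖L e‖ ≤ 1 / 2 →
  (∀ v : E n, inner ℝ e v = (0 : ℝ) → ‖L v‖ ≤ (1 / 2) * ‖v‖ ∧ inner ℝ e (L v) = (0 : ℝ)) →
  (1 / 8 : ℝ) ^ n ≤ |((3 / 8 : ℝ) • ContinuousLinearMap.id ℝ (E n) + (1 / 4 : ℝ) • L).det| *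
    |((3 / 8 : ℝ) • ContinuousLinearMap.id ℝ (E n) - (1 / 4 : ℝ) • L).det|

/-- **INJ** (short-medium, 70 lines). Proof. `Ph M x = (‖x‖/4) q x`, `q x = un x + (M x + (1/2) un x)`. For `x, y ≠ 0` (`sup`): `⟪un y, q x⟫ ≤ ⟪un y, un x⟫ + ⟪un y, M y + (1/2) un y⟫ ≤
⟪un y, q y⟫`, and `⟪un y, q y⟫ = 3/2 + ⟪un y, M y⟫ ≥ 1`. If `‖x‖ q x = ‖y‖ q y` and, say, `‖x‖ < ‖y‖`, then `⟪un y, q x⟫ = (‖y‖/‖x‖) ⟪un y, q y⟫ > ⟪un y, q y⟫`: contradiction. So `‖x‖ = ‖y‖`,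
`q x = q y`, and equality holds above: `⟪un y, un x⟫ = 1`, `un x = un y`, `x = y`. -/
def INJ_stmt : Prop := ∀ (n : ℕ) (M : E n → E n), EvenMap M → InjOn (Ph M) {x : E n | x ≠ 0}

/-- **CHV** (medium, 120 lines; GLP, DER, DET, INJ). Change of variables. Proof. `G z = ‖z‖ M z` is Lipschitz (GLP), so differentiable almost everywhere (`LipschitzWith.ae_differentiableAt`); it is
even, so the set `D` of the points of differentiability is symmetric and `fderiv G (-x) = - fderiv G x`. `D` is measurable (`measurableSet_of_differentiableAt`). `A₀ = A ∩ D`. `Ph M = (3/8) id + (1/4) G`. By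
`MeasureTheory.lintegral_abs_det_fderiv_eq_addHaar_image` (INJ) the volume of `Ph M '' A₀` is the integral over `A₀` of `|det (3/8 + fderiv G x/4)|`, and, substituting `-x`
(`A₀` is symmetric), also that of `|det (3/8 - fderiv G x/4)|`. `a + b ≥ 2 √(ab)` and DER (`‖L (un x)‖ = ‖M x‖ ≤ 1/2`), DET with `e = un x`: the sum of the two integrands is at least
`2 √((1/8)^n) = 2 (√(1/8))^n`. -/
def CHV_stmt : Prop := ∀ (n : ℕ) (M : E n → E n), EvenMap M → ∀ A : Set (E n), MeasurableSet A →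
  (∀ x ∈ A, -x ∈ A) → (0 : E n) ∉ A →
  ENNReal.ofReal (Real.sqrt (1 / 8) ^ n) * volume A ≤ volume (Ph M '' A)

/-- **CE1** (short-medium, 70 lines). The certificate. Proof. `X = M + (1/2) u`, `z = 1.1287 ((3/8) u + (1/4) M)`, `ν = 0.2218`, `μ = 0.6321`, `λ = 1 + ν - μ`. Identity:
`1 - ‖z - y‖² = λ (1/2 - ‖y‖²) + μ (1 - ‖y - X‖²) + ν ‖y + (z - μ X)/ν‖² + r`, `ν r = ν (1 - ‖z‖² - λ/2 - μ + μ ‖X‖²) - ‖z - μ X‖²`. With `t = ⟪u, M⟫`, `q = ‖M‖²`: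
`‖X‖² = q + t + 1/4`, `‖z‖² = c² (9/64 + 3t/16 + q/16)`, `⟪z, X⟫ = c (3/16 + t/2 + q/4)`, `c = 1.1287`; `ν r` is an affine function of `t` and `q`, the coefficient of `q` is nonnegative,
and for `q = 0`, `|t| ≤ 1/20000` it is at least `10⁻⁵`. (Expand everything into the inner products `⟪u,M⟫, ⟪u,y⟫, ⟪M,y⟫, ‖M‖², ‖y‖²`; for the square use
`0 ≤ ‖ν y + (z - μ X)‖²`.) -/
def CE1_stmt : Prop := ∀ (n : ℕ) (u M y : E n), ‖u‖ = 1 → ‖y‖ ^ 2 ≤ 1 / 2 → ‖y - (M + (1 / 2 : ℝ) • u)‖ ≤ 1 →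
  |inner ℝ u M| ≤ (1 / 20000 : ℝ) → ‖(1.1287 : ℝ) • ((3 / 8 : ℝ) • u + (1 / 4 : ℝ) • M) - y‖ ≤ 1

/-- **CON** (medium, 90 lines; G1). Cones. Proof. Polar coordinates `G5_polar` in Pool/Agent/helper23/CW/G5.lean for the indicator of `S ∩ closedBall 0 1` and `G5_gm` for the indicator of `S`:
both sides are `σ(S ∩ sphere)` times constants, and for `S = univ` the two sides are equal (`gm` is a probability measure). -/
def CON_stmt : Prop := ∀ (n : ℕ) (S : Set (E n)), 0 < n → MeasurableSet S → (∀ x ∈ S, ∀ t : ℝ, 0 < t → t • x ∈ S) →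
  volume (S ∩ Metric.closedBall (0 : E n) 1) = gm n S * volume (Metric.closedBall (0 : E n) 1)

/-- **TY1** (short-medium, 50 lines; G1, J6). Markov's inequality for J6 with `R = √(1/2)`: `γ{ε < |..|} ≤ (R/√n)/ε ≤ ε` for `n ≥ 1/(2 ε⁴)`. (Integrability: the function is bounded by
`R + 1/2`, J4; it is measurable.) -/
def TY1_stmt : Prop := ∀ ε : ℝ, 0 < ε → ∀ᶠ n : ℕ in atTop, ∀ C : Set (E n), ConstWidth C 1 → (∀ y ∈ C, ‖y‖ ^ 2 ≤ 1 / 2) →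
  gm n {x : E n | ε < |supp C x / ‖x‖ - 1 / 2|} ≤ ENNReal.ofReal ε

/-- **VOL** (medium, 120 lines; G1, J1, J2, J3, MPS, CHV, CE1, CON, TY1). The volume. Proof. By J1 and J3 (`t = 1`) we may assume `‖y‖² ≤ 1/2` on `C`. `M` from MPS,
`S = {x | x ≠ 0, |⟪un x, M x⟫| ≤ 1/20000}`, `A = S ∩ closedBall 0 1`, symmetric. TY1 with `ε = 1/20000`: `gm n S ≥ 1/2` (`{0}` has measure `0`), CON: `vol A ≥ (1/2) vol (closedBall 0 1)`. For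
`x ∈ A`: `1.1287 Ph M x = ‖x‖ (1.1287 ((3/8) un x + (1/4) M x))`; the point in brackets is in `C` by CE1 and completeness (J2), `0 ∈ C` by completeness, `C` is convex.
So `vol C ≥ 1.1287^n vol (Ph M '' A) ≥ (1.1287 √(1/8))^n (1/2) 2^n vol (closedBall 0 (1/2))` (CHV), and `(2 · 1.1287 · √(1/8))^n/2 ≥ 0.7981^n` for large `n` (`2 · 1.1287 · √(1/8) > 0.79811`). -/
def VOL_stmt : Prop := ∀ᶠ n : ℕ in atTop, ∀ C : Set (E n), ConstWidth C 1 →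
  ENNReal.ofReal (0.7981 ^ n) * volume (Metric.closedBall (0 : E n) (1 / 2)) ≤ volume C

/-- **MVL** (short, 40 lines; VOL, and `MVN_stmt` of Pool/Agent/helper71/CL/Spec.lean, proved in Pool/Agent/helper25/CL/MVN.lean). -/
def MVL_stmt : Prop := ∀ᶠ n : ℕ in atTop, ENNReal.ofReal (0.7981 ^ n) ≤ mvol n

/-- **TAL** (short-medium, 50 lines; MVL). Proof. `lower_tau` in Pool/Agent/helper81/CW/Lower.lean: `mvol n/(5(n+1)) ≤ tau n`; `0.7981^n/(5(n+1)) ≥ 0.798^n` for large `n`. Compare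
`final_tau_low` in Pool/Agent/helper81/CW/Final.lean. -/
def TAL_stmt : Prop := ∀ᶠ n : ℕ in atTop, ENNReal.ofReal (0.798 ^ n) ≤ tau n

/-- **BLM** (short-medium, 60 lines; MVL). Proof. `all_CFIN` in Pool/Agent/helper71/CL/All.lean gives the limit `β`; for large `n` `(mvol n)^(1/n) ≥ 0.7981`, so `β ≥ 0.7981` (`ge_of_tendsto`). -/
def BLM_stmt : Prop := ∃ β : ℝ, 0.798 ≤ β ∧ β ≤ 0.9 ∧
  Tendsto (fun d : ℕ => (tau d).toReal ^ (1 / (d : ℝ))) atTop (𝓝 β) ∧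
  Tendsto (fun d : ℕ => (mvol d).toReal ^ (1 / (d : ℝ))) atTop (𝓝 β) ∧
  ∀ d : ℕ, 1 ≤ d → ENNReal.ofReal (β ^ d) ≤ ENNReal.ofReal (8 * Real.sqrt (d : ℝ)) * mvol d

/-! ### The symmetric part -/

/-- **ROT** (medium, 90 lines). Rotation invariance of `gm n ⊗ gm n`. Proof. `gm n ⊗ gm n` has the density `exp(-(‖x‖²+‖y‖²)/2)/(2π)^n` (`prod_withDensity`), which is invariant under the linear map
`R (x,y) = (cos θ x + sin θ y, - sin θ x + cos θ y)` of `E n × E n`, `|det R| = 1`. To see that `R` preserves `volume.prod volume`: it is a composition of three shears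
`(x,y) ↦ (x + a y, y)`, `(x,y) ↦ (x, y + b x)` (each preserves the measure: `MeasurePreserving.skew_product`, translation invariance) when `cos (θ/2) ≠ 0`: `a = tan (θ/2)`, `b = - sin θ`; in the remaining
case `cos θ = -1`, `sin θ = 0` and `R = - id`. -/
def ROT_stmt : Prop := ∀ (n : ℕ) (θ : ℝ) (F : E n × E n → ℝ≥0∞), Measurable F →
  ∫⁻ x, ∫⁻ y, F (Real.cos θ • x + Real.sin θ • y, -Real.sin θ • x + Real.cos θ • y) ∂(gm n) ∂(gm n) =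
    ∫⁻ x, ∫⁻ y, F (x, y) ∂(gm n) ∂(gm n)

/-- **WIR** (medium-long, 150 lines; G1, ROT). Wirtinger's inequality. Notation `x_θ = cos θ x + sin θ y`, `E` = integral over `x, y` (all integrands are bounded). ROT: `E F(x_α, x_(α+π/2)) = E F(x_0, x_(π/2))`. Let
`D_θ = M(x_θ) - M(x_(θ+π/2))`, `C(θ) = E⟪D_0, D_θ⟫`. Then `E⟪D_α, D_(α+θ)⟫ = C(θ)`. `x_(θ+π) = -x_θ` and `M` is even: `D_(θ+π/2) = -D_θ`. So
`C(π/4) = E⟪D_(π/4), D_(π/2)⟫ = - E⟪D_(π/4), D_0⟫ = - C(π/4)` is `0`. Cauchy-Schwarz for `2 C(θ/2) = E⟪D_(θ/2), D_0 + D_θ⟫`: `C(θ/2)² ≤ C(0) (C(0) + C(θ))/2` (here `E⟪D_(θ/2), D_θ⟫ = C(θ/2)`).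
`C(π/8)² ≤ C(0)²/2`, `C(π/16)² ≤ C(0)² (1 + 1/√2)/2 = C(0)² cos²(π/8)`. `E‖D_(π/16) - D_0‖² = 2 C(0) - 2 C(π/16) ≥ 2 C(0) (1 - cos(π/8))`, and it is at most `4 AA M (π/16)` since
`D_θ - D_0 = (M(x_θ) - M(x_0)) - (M(x_(θ+π/2)) - M(x_(π/2)))`. Finally `C(0) = E‖M(x) - M(y)‖² = 2 ∫‖M - s‖²`, `s = ∫ M`. -/
def WIR_stmt : Prop := ∀ (n : ℕ) (M : E n → E n), EvenMap M →
  (∫ x, ‖M x - ∫ z, M z ∂(gm n)‖ ^ 2 ∂(gm n)) * (1 - Real.cos (Real.pi / 8)) ≤ AA M (Real.pi / 16)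

/-- **GVA** (short-medium, 70 lines; G1, G2). Variance of Lipschitz functions. Proof. `g` is integrable with all powers (`|g x| ≤ |g 0| + R‖x‖`; compare `G3_exp` in Pool/Agent/helper63/CW/G3.lean). G2 for `l g`:
`∫∫ exp(l (g x - g y)) ≤ exp(l² R²)`; symmetrise: `∫∫ cosh(l (g x - g y)) ≤ exp(l² R²)`, `cosh t ≥ 1 + t²/2`: `∫∫ (g x - g y)² ≤ 2 (exp(l² R²) - 1)/l² → 2 R²`; the left side is twice the variance. -/
def GVA_stmt : Prop := ∀ (n : ℕ) (g : E n → ℝ) (R : ℝ), 0 ≤ R → (∀ x y, |g x - g y| ≤ R * ‖x - y‖) →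
  Integrable g (gm n) ∧ Integrable (fun x => g x ^ 2) (gm n) ∧
    ∫ x, g x ^ 2 ∂(gm n) ≤ R ^ 2 + (∫ x, g x ∂(gm n)) ^ 2

/-- **NRM** (short-medium, 60 lines; G1, G4, GVA). The norm is concentrated. Proof. `∫‖x‖² = n` (G4 with `ψ = 1`), so with `m = ∫‖x‖`: `n - 1 ≤ m² ≤ n` (GVA with `R = 1`; Jensen) and
`∫ (‖x‖ - m)² ≤ 1`. Chebyshev: if `‖x‖² < (1-η) n` then `m - ‖x‖ ≥ √(n-1) - √((1-η) n)`, which tends to infinity. -/
def NRM_stmt : Prop := ∀ η : ℝ, 0 < η → ∀ᶠ n : ℕ in atTop,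
  gm n {x : E n | ‖x‖ ^ 2 < (1 - η) * n} ≤ ENNReal.ofReal η

/-- **CHO** (medium, 120 lines; G1, G4, ROT, NRM). Chords. Proof. `x' = cos θ x + sin θ y`, `θ = π/16`. `‖M x - M x'‖² ≤ ‖un x - un x'‖²/4`, and `‖un x - un x'‖² ‖x‖ ‖x'‖ = ‖x - x'‖² - (‖x‖ - ‖x'‖)² ≤ ‖x - x'‖²`. Where
`‖x‖² ≥ (1-η) n` and `‖x'‖² ≥ (1-η) n`: at most `‖x - x'‖²/(4 (1-η) n)`; elsewhere `‖M x - M x'‖² ≤ 1`. `x'` is distributed as `x` (ROT), so the exceptional set has measure at most `2 η` (NRM).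
`E‖x - x'‖² = ((1 - cos θ)² + sin² θ) n = 2 (1 - cos θ) n`. Total: `(1 - cos θ)/(2 (1-η)) + 2 η`. -/
def CHO_stmt : Prop := ∀ δ : ℝ, 0 < δ → ∀ᶠ n : ℕ in atTop, ∀ M : E n → E n, EvenMap M →
  AA M (Real.pi / 16) ≤ (1 / 2) * (1 - Real.cos (Real.pi / 16)) + δ

/-- **VAR** (short, 50 lines; WIR, CHO). Proof. `Real.cos_pi_div_eight`, `Real.cos_pi_div_sixteen`: `cos(π/8) = √(2+√2)/2 ≤ 0.92388`, `cos(π/16) ≥ 0.980785`; `(1/2)(1 - 0.980785) + δ = 0.0096075 + δ`,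
`0.0096075/0.07612 = 0.126215...`. -/
def VAR_stmt : Prop := ∀ᶠ n : ℕ in atTop, ∀ M : E n → E n, EvenMap M →
  ∫ x, ‖M x - ∫ z, M z ∂(gm n)‖ ^ 2 ∂(gm n) ≤ 0.1263

/-- **LIN** (medium, 100 lines; G1, G4, GLP, GVA). Linear functionals of `M`. Proof. `ψ x = ⟪M x - s, e⟫`, `|ψ| ≤ 1`, `∫ ψ = 0`, `f x = ‖x‖ ψ x` is `2`-Lipschitz (GLP; `‖s‖ ≤ 1/2`). GVA: `∫ f² ≤ 4 + (∫ f)²`. With `m = ∫‖x‖`: `∫ f =
∫ (‖x‖ - m) ψ`, so `(∫ f)² ≤ ∫ (‖x‖ - m)² ≤ 1` (GVA for the norm). G4 for `ψ²`: `n ∫ ψ² = ∫ f² ≤ 5`. -/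
def LIN_stmt : Prop := ∀ (n : ℕ) (M : E n → E n), EvenMap M → ∀ e : E n, ‖e‖ ≤ 1 →
  n * ∫ x, (inner ℝ (M x - ∫ z, M z ∂(gm n)) e) ^ 2 ∂(gm n) ≤ 5

/-- **LIU** (short, 50 lines; G1, G3, G4). Proof. `ψ x = ⟪un x, e⟫²`, `‖x‖² ψ x = ⟪x, e⟫²`; G4, and G3 for the odd `1`-Lipschitz function `⟪x, e⟫`. -/
def LIU_stmt : Prop := ∀ (n : ℕ) (e : E n), ‖e‖ ≤ 1 → n * ∫ x, (inner ℝ (un x) e) ^ 2 ∂(gm n) ≤ 1

/-- **CE2** (short-medium, 80 lines). The certificate. Proof. As CE1 with `z = 0.3383 s + 0.3711 u`, `ν = 0.3076`, `μ = 0.4424`, `λ = 1 + ν - μ`, `X = M + (1/2) u`: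
`1 - ‖z - y‖² = λ (1/2 - ‖y‖²) + μ (1 - ‖y - X‖²) + ν ‖y + (z - μ X)/ν‖² + r`, `ν r = ν (1 - ‖z‖² - λ/2 - μ + μ ‖X‖²) - ‖z - μ X‖²`. With `t₁ = ⟪u,M⟫`, `t₂ = ⟪u,s⟫`, `t₃ = ⟪M-s,s⟫`, `q = ‖M-s‖²`, `S = ‖s‖²`:
`‖M‖² = q + 2 t₃ + S`, `⟪M,s⟫ = t₃ + S`, `‖X‖² = ‖M‖² + t₁ + 1/4`, `‖z‖² = τ² S + ρ² + 2 τ ρ t₂`, `⟪z,X⟫ = τ ⟪M,s⟫ + τ t₂/2 + ρ t₁ + ρ/2`; `ν r` is affine in `t₁, t₂, t₃, q, S`, with a positive coefficient of `S`
(`0.09`) and a negative one of `q`; its minimum over the given range is `6.4 · 10⁻⁵`. -/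
def CE2_stmt : Prop := ∀ (n : ℕ) (u M y s : E n), ‖u‖ = 1 → ‖y‖ ^ 2 ≤ 1 / 2 → ‖y - (M + (1 / 2 : ℝ) • u)‖ ≤ 1 →
  |inner ℝ u M| ≤ (1 / 20000 : ℝ) → |inner ℝ u s| ≤ (1 / 20000 : ℝ) → |inner ℝ (M - s) s| ≤ (1 / 20000 : ℝ) →
  ‖M - s‖ ^ 2 ≤ 0.1265 → ‖(0.3383 : ℝ) • s + (0.3711 : ℝ) • u - y‖ ≤ 1

/-- **INN** (medium-long, 160 lines; G1, J1, J2, J3, MPS, CON, TY1, VAR, LIN, LIU, CE2). The symmetric part. Proof. As in VOL `‖y‖² ≤ 1/2` on `C`; `M` from MPS, `s = ∫ M`, `‖s‖ ≤ 1/2`, `z = 0.3383 s`. `S` = the set of the `x ≠ 0` with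
`|⟪un x, M x⟫|, |⟪un x, s⟫|, |⟪M x - s, s⟫| ≤ 1/20000`, `‖M x - s‖² ≤ 0.1265`; a symmetric cone. The complement has Gaussian measure at most `0.0001` (TY1) `+ 0.0001` (LIU, Chebyshev) `+ 0.0001` (LIN, Chebyshev) `+ 0.1263/0.1265`
(VAR, Markov) `≤ 0.999`. For `x ∈ S` CE2 for `u = un x` and for `u = -un x` (`M` is even) and completeness give `z ± 0.3711 un x ∈ C`; also `z ∈ C`; convexity: `z ± 0.3711 x ∈ C` for `x ∈ S ∩ closedBall 0 1`. CON and scaling.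
(The translation of J3 moves the centre.) -/
def INN_stmt : Prop := ∀ᶠ n : ℕ in atTop, ∀ C : Set (E n), ConstWidth C 1 →
  ∃ z : E n, ENNReal.ofReal (0.3711 ^ n / 1000) * volume (Metric.closedBall (0 : E n) 1) ≤
    volume {x : E n | z + x ∈ C ∧ z - x ∈ C}

/-- **SGL** (short-medium, 80 lines; G6, J2, J3, INN). Proof. As SLOWS (Pool/Agent/helper81/CW/SLOWS.lean): for `C` of width `w` use `(1/w) C`; the set `{z + x : z ± x ∈ C}` is convex and symmetric, `vol C ≤ vol (closedBall 0 (1/2))` (G6), so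
`innerSym C ≥ 0.7422^n/1000 ≥ 0.742^n` for large `n`. -/
def SGL_stmt : Prop := ∀ᶠ n : ℕ in atTop, ENNReal.ofReal (0.742 ^ n) ≤ sigma n

/-- **ALM** (short-medium, 60 lines; SGL). Proof. `all_CIN` in Pool/Agent/helper81/CI/All.lean gives the limit `α`; `ge_of_tendsto`. -/
def ALM_stmt : Prop := ∃ α : ℝ, 0.742 ≤ α ∧ α ≤ 0.991 ∧
  Tendsto (fun n : ℕ => (sigma n).toReal ^ (1 / (n : ℝ))) atTop (𝓝 α) ∧
  ∀ d : ℕ, 1 ≤ d → ENNReal.ofReal (α ^ d) ≤ ENNReal.ofReal (31 * (d : ℝ)) * sigma d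

end Pool.Agent.CX
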