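import Pool.Agent.helper25.CX.Spec

/-!
# Project cx, general parameters (for the stronger theorem of helper81)

`Pg a b M x = a x + b ‖x‖ M x` with `0 < a`, `0 ≤ b ≤ a`.
-/

set_option autoImplicit false

open MeasureTheory Set Filter Topology
open scoped ENNReal
open Pool.Agent.helper81.CW

noncomputable section

namespace Pool.Agent.CX

/-- `a x + b ‖x‖ M x` -/
def Pg {n : ℕ} (a b : ℝ) (M : E n → E n) (x : E n) : E n := a • x + (b * ‖x‖) • M x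

/-- **DTG** (as DET). -/
def DTG_stmt : Prop := ∀ (n : ℕ) (a b : ℝ), 0 < a → 0 ≤ b → b ≤ a → ∀ (L : E n →L[ℝ] E n) (e : E n), ‖e‖ = 1 →
  ‖L e‖ ≤ 1 / 2 →
  (∀ v : E n, inner ℝ e v = (0 : ℝ) → ‖L v‖ ≤ (1 / 2) * ‖v‖ ∧ inner ℝ e (L v) = (0 : ℝ)) →
  (a ^ 2 - b ^ 2 / 4) ^ n ≤ |(a • ContinuousLinearMap.id ℝ (E n) + b • L).det| *
    |(a • ContinuousLinearMap.id ℝ (E n) - b • L).det|

/-- **IJG** (as INJ): `a un x + b M x = b (M x + (1/2) un x) + (a - b/2) un x`. -/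
def IJG_stmt : Prop := ∀ (n : ℕ) (a b : ℝ), 0 < a → 0 ≤ b → b ≤ a → ∀ M : E n → E n, EvenMap M →
  InjOn (Pg a b M) {x : E n | x ≠ 0}

/-- **CVG** (as CHV). -/
def CVG_stmt : Prop := ∀ (n : ℕ) (a b : ℝ), 0 < a → 0 ≤ b → b ≤ a → ∀ M : E n → E n, EvenMap M →
  ∀ A : Set (E n), MeasurableSet A → (∀ x ∈ A, -x ∈ A) → (0 : E n) ∉ A →
  ENNReal.ofReal (Real.sqrt (a ^ 2 - b ^ 2 / 4) ^ n) * volume A ≤ volume (Pg a b M '' A)

end Pool.Agent.CX
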